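import Mathlib

/-!
# Circuits of fan-in at most two with guess bits

Definitions only.
-/

open Finset

namespace Pool.Agent.H559R2.Sharing

/-- What a gate can read: an input variable, a guess bit, or a gate. -/
abbrev Src (n q s : ℕ) := (Fin n ⊕ Fin q) ⊕ Fin s

/-- A gate of fan-in one or two, labelled by an arbitrary Boolean function. -/
inductive Gate (n q s : ℕ) : Type
  | unary (φ : Bool → Bool) (a : Src n q s)
  | binary (φ : Bool → Bool → Bool) (a b : Src n q s)

/-- The list of the wires entering a gate. -/
def Gate.wires {n q s : ℕ} : Gate n q s → List (Src n q s)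
  | .unary _ a => [a]
  | .binary _ a b => [a, b]

/-- The value of a gate when its sources have the values `ν`. -/
def Gate.eval {n q s : ℕ} (g : Gate n q s) (ν : Src n q s → Bool) : Bool :=
  match g with
  | .unary φ a => φ (ν a)
  | .binary φ a b => φ (ν a) (ν b)

/-- A circuit with `n` inputs and `q` guess bits: `size` gates, numbered so that wires go from
smaller to larger numbers, one of which is the output. -/
structure Circuit (n q : ℕ) : Type where
  size : ℕ
  gate : Fin size → Gate n q size
  acyclic : ∀ i j : Fin size, (Sum.inr j : Src n q size) ∈ (gate i).wires → j < i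
  out : Fin size

/-- `v` is the assignment of values to the gates determined by the values `ξ` of the variables
(inputs and guess bits). -/
def Circuit.IsRun {n q : ℕ} (C : Circuit n q) (ξ : Fin n ⊕ Fin q → Bool)
    (v : Fin C.size → Bool) : Prop :=
  ∀ i, v i = (C.gate i).eval (Sum.elim ξ v)

/-- The circuit computes `f`: `f x = true` iff some setting `w` of the guess bits makes the
output gate true. -/
def Circuit.Computes {n q : ℕ} (C : Circuit n q) (f : (Fin n → Bool) → Bool) : Prop :=
  ∀ x, f x = true ↔ ∃ (w : Fin q → Bool) (v : Fin C.size → Bool),
    C.IsRun (Sum.elim x w) v ∧ v C.out = true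

/-- The number of wires leaving gate `j`. -/
def Circuit.fanOut {n q : ℕ} (C : Circuit n q) (j : Fin C.size) : ℕ :=
  ∑ i, (C.gate i).wires.countP (fun a => a = Sum.inr j)

/-- There is a directed path from the variable `i` (an input or a guess bit) to gate `j`. -/
inductive Circuit.Reads {n q : ℕ} (C : Circuit n q) : Fin C.size → Fin n ⊕ Fin q → Prop
  | var (j : Fin C.size) (i : Fin n ⊕ Fin q) (h : Sum.inl i ∈ (C.gate j).wires) : C.Reads j i
  | gate (j j' : Fin C.size) (i : Fin n ⊕ Fin q) (h : Sum.inr j' ∈ (C.gate j).wires)
      (h' : C.Reads j' i) : C.Reads j i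

open Classical in
/-- The set of variables from which gate `j` can be reached. -/
noncomputable def Circuit.supp {n q : ℕ} (C : Circuit n q) (j : Fin C.size) :
    Finset (Fin n ⊕ Fin q) :=
  univ.filter fun i => C.Reads j i

/-- The number of gates that can be reached from more than `K` variables. -/
noncomputable def Circuit.numGlobal {n q : ℕ} (C : Circuit n q) (K : ℕ) : ℕ :=
  (univ.filter fun j => K < (C.supp j).card).card

/-- The number of gates that can be reached from more than `K` variables and have at least two
outgoing wires. -/
noncomputable def Circuit.numShared {n q : ℕ} (C : Circuit n q) (K : ℕ) : ℕ :=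
  (univ.filter fun j => K < (C.supp j).card ∧ 2 ≤ C.fanOut j).card

end Pool.Agent.H559R2.Sharing
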