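import Mathlib
import Pool.Agent.H559R2.SharingDefs

/-!
Basic facts about circuits, and families of functions of a block of variables.
-/

open Finset

namespace Pool.Agent.H559R2.Sharing

/-! ### Fixed points of acyclic systems -/

lemma exists_fixed {τ : Type*} [Inhabited τ] {s : ℕ} (F : Fin s → (Fin s → τ) → τ)
    (hF : ∀ i v v', (∀ j < i, v j = v' j) → F i v = F i v') :
    ∃ v : Fin s → τ, ∀ i, v i = F i v := by
  classical
  have key : ∀ k : ℕ, ∃ v : Fin s → τ, ∀ i : Fin s, i.val < k → v i = F i v := by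
    intro k
    induction k with
    | zero => exact ⟨fun _ => default, fun i hi => absurd hi (Nat.not_lt_zero _)⟩
    | succ k ih =>
      obtain ⟨v, hv⟩ := ih
      refine ⟨fun i => F i v, fun i hi => ?_⟩
      apply hF
      intro j hj
      have : j.val < k := by
        have : j.val < i.val := hj
        omega
      exact hv j this
  obtain ⟨v, hv⟩ := key s
  exact ⟨v, fun i => hv i i.isLt⟩

lemma Gate.eval_congr {n q s : ℕ} (g : Gate n q s) {ν ν' : Src n q s → Bool}
    (h : ∀ a ∈ g.wires, ν a = ν' a) : g.eval ν = g.eval ν' := by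
  cases g with
  | unary φ a =>
    simp only [Gate.eval]
    rw [h a (by simp [Gate.wires])]
  | binary φ a b =>
    simp only [Gate.eval]
    rw [h a (by simp [Gate.wires]), h b (by simp [Gate.wires])]

lemma Circuit.exists_run {n q : ℕ} (C : Circuit n q) (ξ : Fin n ⊕ Fin q → Bool) :
    ∃ v, C.IsRun ξ v := by
  apply exists_fixed (fun i v => (C.gate i).eval (Sum.elim ξ v))
  intro i v v' h
  apply Gate.eval_congr
  intro a ha
  rcases a with a | a
  · rfl
  · exact h a (C.acyclic i a ha)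

/-- The values of the gates. -/
noncomputable def Circuit.val {n q : ℕ} (C : Circuit n q) (ξ : Fin n ⊕ Fin q → Bool) :
    Fin C.size → Bool := (C.exists_run ξ).choose

lemma Circuit.val_spec {n q : ℕ} (C : Circuit n q) (ξ : Fin n ⊕ Fin q → Bool) :
    C.IsRun ξ (C.val ξ) := (C.exists_run ξ).choose_spec

lemma Circuit.run_unique {n q : ℕ} (C : Circuit n q) (ξ : Fin n ⊕ Fin q → Bool)
    {v v' : Fin C.size → Bool} (h : C.IsRun ξ v) (h' : C.IsRun ξ v') : v = v' := by
  have key : ∀ k : ℕ, ∀ i : Fin C.size, i.val < k → v i = v' i := by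
    intro k
    induction k with
    | zero => intro i hi; exact absurd hi (Nat.not_lt_zero _)
    | succ k ih =>
      intro i hi
      rw [h i, h' i]
      apply Gate.eval_congr
      intro a ha
      rcases a with a | a
      · rfl
      · have : a.val < i.val := C.acyclic i a ha
        exact ih a (by omega)
  funext i
  exact key C.size i i.isLt

/-- The variables below a source. -/
noncomputable def Circuit.ssupp {n q : ℕ} (C : Circuit n q) :
    Src n q C.size → Finset (Fin n ⊕ Fin q)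
  | Sum.inl i => {i}
  | Sum.inr j => C.supp j

/-- The value of a source. -/
noncomputable def Circuit.sval {n q : ℕ} (C : Circuit n q) (ξ : Fin n ⊕ Fin q → Bool) :
    Src n q C.size → Bool := Sum.elim ξ (C.val ξ)

lemma supp_sub_of_wire {n q : ℕ} (C : Circuit n q) {j j' : Fin C.size}
    (h : (Sum.inr j' : Src n q C.size) ∈ (C.gate j).wires) : C.supp j' ⊆ C.supp j := by
  classical
  intro i hi
  simp only [Circuit.supp, mem_filter, mem_univ, true_and] at hi ⊢
  exact Circuit.Reads.gate j j' i h hi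

lemma mem_supp_of_wire {n q : ℕ} (C : Circuit n q) {j : Fin C.size} {i : Fin n ⊕ Fin q}
    (h : (Sum.inl i : Src n q C.size) ∈ (C.gate j).wires) : i ∈ C.supp j := by
  classical
  simp only [Circuit.supp, mem_filter, mem_univ, true_and]
  exact Circuit.Reads.var j i h

lemma ssupp_sub_of_wire {n q : ℕ} (C : Circuit n q) {j : Fin C.size} {a : Src n q C.size}
    (h : a ∈ (C.gate j).wires) : C.ssupp a ⊆ C.supp j := by
  rcases a with i | j'
  · intro i' hi'
    simp only [Circuit.ssupp, mem_singleton] at hi'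
    rw [hi']
    exact mem_supp_of_wire C h
  · exact supp_sub_of_wire C h

lemma val_congr {n q : ℕ} (C : Circuit n q) (ξ ξ' : Fin n ⊕ Fin q → Bool) :
    ∀ (m : ℕ) (j : Fin C.size), j.val < m → (∀ i ∈ C.supp j, ξ i = ξ' i) →
      C.val ξ j = C.val ξ' j := by
  intro m
  induction m with
  | zero => intro j hj; exact absurd hj (Nat.not_lt_zero _)
  | succ m ih =>
    intro j hj hx
    rw [C.val_spec ξ j, C.val_spec ξ' j]
    apply Gate.eval_congr
    intro b hb
    rcases b with b | b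
    · exact hx b (mem_supp_of_wire C hb)
    · have hlt : b.val < j.val := C.acyclic j b hb
      exact ih b (by omega) (fun i hi => hx i (supp_sub_of_wire C hb hi))

lemma sval_congr {n q : ℕ} (C : Circuit n q) (a : Src n q C.size) (ξ ξ' : Fin n ⊕ Fin q → Bool)
    (h : ∀ i ∈ C.ssupp a, ξ i = ξ' i) : C.sval ξ a = C.sval ξ' a := by
  rcases a with i | j
  · exact h i (by simp [Circuit.ssupp])
  · exact val_congr C ξ ξ' (j.val + 1) j (Nat.lt_succ_self _) h

/-! ### Families of functions -/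

section Family

variable {Ω : Type*} [Fintype Ω] [DecidableEq Ω] [Nonempty Ω]

/-- `S` is a family closed under post-composition, of size at most `4^(2ℓ-1)`, consisting of
constant functions when `ℓ = 0`. -/
structure Good (ℓ : ℕ) (S : Finset (Ω → Bool)) : Prop where
  closed : ∀ F ∈ S, ∀ ψ : Bool → Bool, (fun Y => ψ (F Y)) ∈ S
  const : ℓ = 0 → ∀ F ∈ S, ∀ Y Y', F Y = F Y'
  card : S.card ≤ if ℓ = 0 then 2 else 4 ^ (2 * ℓ - 1)

omit [DecidableEq Ω] [Nonempty Ω] in
lemma good_const [DecidableEq (Ω → Bool)] :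
    Good 0 ({fun _ => true, fun _ => false} : Finset (Ω → Bool)) := by
  refine ⟨?_, ?_, ?_⟩
  · intro F hF ψ
    simp only [mem_insert, mem_singleton] at hF ⊢
    rcases hF with rfl | rfl
    · cases h : ψ true
      · right; funext Y; simp [h]
      · left; funext Y; simp [h]
    · cases h : ψ false
      · right; funext Y; simp [h]
      · left; funext Y; simp [h]
  · intro _ F hF Y Y'
    simp only [mem_insert, mem_singleton] at hF
    rcases hF with rfl | rfl <;> rfl
  · simp only [if_true]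
    exact (card_insert_le _ _).trans (by simp)

omit [Fintype Ω] [DecidableEq Ω] [Nonempty Ω] in
lemma mem_const [DecidableEq (Ω → Bool)] (c : Bool) :
    (fun _ => c) ∈ ({fun _ => true, fun _ => false} : Finset (Ω → Bool)) := by
  cases c <;> simp

omit [DecidableEq Ω] in
lemma good_binary [DecidableEq (Ω → Bool)] (φ : Bool → Bool → Bool) {ℓ₁ ℓ₂ : ℕ}
    {S₁ S₂ : Finset (Ω → Bool)} (h₁ : Good ℓ₁ S₁) (h₂ : Good ℓ₂ S₂) :
    ∃ S : Finset (Ω → Bool), Good (ℓ₁ + ℓ₂) S ∧
      ∀ F₁ ∈ S₁, ∀ F₂ ∈ S₂, (fun Y => φ (F₁ Y) (F₂ Y)) ∈ S := by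
  obtain ⟨Y₀⟩ := ‹Nonempty Ω›
  by_cases z₁ : ℓ₁ = 0
  · subst z₁
    refine ⟨S₂, by simpa using h₂, ?_⟩
    intro F₁ hF₁ F₂ hF₂
    have : (fun Y => φ (F₁ Y) (F₂ Y)) = fun Y => (φ (F₁ Y₀)) (F₂ Y) := by
      funext Y; rw [h₁.const rfl F₁ hF₁ Y Y₀]
    rw [this]
    exact h₂.closed F₂ hF₂ _
  by_cases z₂ : ℓ₂ = 0
  · subst z₂
    refine ⟨S₁, by simpa using h₁, ?_⟩
    intro F₁ hF₁ F₂ hF₂
    have : (fun Y => φ (F₁ Y) (F₂ Y)) = fun Y => (fun b => φ b (F₂ Y₀)) (F₁ Y) := by
      funext Y; rw [h₂.const rfl F₂ hF₂ Y Y₀]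
    rw [this]
    exact h₁.closed F₁ hF₁ (fun b => φ b (F₂ Y₀))
  refine ⟨((univ : Finset (Bool → Bool)) ×ˢ (S₁ ×ˢ S₂)).image
      (fun p => fun Y => p.1 (φ (p.2.1 Y) (p.2.2 Y))), ⟨?_, ?_, ?_⟩, ?_⟩
  · intro F hF ψ
    simp only [mem_image, mem_product, mem_univ, true_and, Prod.exists] at hF ⊢
    obtain ⟨ψ', F₁, F₂, hm, rfl⟩ := hF
    exact ⟨fun b => ψ (ψ' b), F₁, F₂, hm, rfl⟩
  · intro h; omega
  · refine card_image_le.trans ?_
    rw [card_product, card_product]
    have e₁ := h₁.card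
    have e₂ := h₂.card
    rw [if_neg z₁] at e₁
    rw [if_neg z₂] at e₂
    rw [if_neg (by omega)]
    have e3 : (univ : Finset (Bool → Bool)).card = 4 := by simp
    rw [e3]
    calc 4 * (S₁.card * S₂.card) ≤ 4 * (4 ^ (2 * ℓ₁ - 1) * 4 ^ (2 * ℓ₂ - 1)) := by gcongr
      _ = 4 ^ (1 + ((2 * ℓ₁ - 1) + (2 * ℓ₂ - 1))) := by rw [pow_add, pow_add, pow_one]
      _ = 4 ^ (2 * (ℓ₁ + ℓ₂) - 1) := by congr 1; omega
  · intro F₁ hF₁ F₂ hF₂
    simp only [mem_image, mem_product, mem_univ, true_and, Prod.exists]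
    exact ⟨id, F₁, F₂, ⟨hF₁, hF₂⟩, rfl⟩

omit [Fintype Ω] [DecidableEq Ω] [Nonempty Ω] in
lemma Good.card_le {ℓ : ℕ} {S : Finset (Ω → Bool)} (h : Good ℓ S) : S.card ≤ 2 * 16 ^ ℓ := by
  have := h.card
  by_cases z : ℓ = 0
  · subst z; simpa using this
  · rw [if_neg z] at this
    have h16 : (16 : ℕ) ^ ℓ = 4 ^ (2 * ℓ) := by rw [pow_mul]; norm_num
    have : (4 : ℕ) ^ (2 * ℓ - 1) ≤ 4 ^ (2 * ℓ) := Nat.pow_le_pow_right (by norm_num) (by omega)
    omega

/-- The weight, relative to the block `B`, of a local source with set of variables `D`. -/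
def lwt {V : Type*} [DecidableEq V] (B D : Finset V) : ℕ := if D ∩ B = ∅ then 0 else D.card

omit [DecidableEq Ω] in
/-- A function of a few variables, as a function of the block variables. -/
lemma good_local [DecidableEq (Ω → Bool)] {V : Type*} [DecidableEq V] (B D : Finset V)
    (G : (V → Bool) → Bool) (hG : ∀ ξ ξ', (∀ i ∈ D, ξ i = ξ' i) → G ξ = G ξ')
    (α : Ω → V → Bool) :
    ∃ S : Finset (Ω → Bool), Good (lwt B D) S ∧
      ∀ ξ : Ω → V → Bool, (∀ Y, ∀ i ∈ B, ξ Y i = α Y i) →
        (∀ Y Y', ∀ i ∉ B, ξ Y i = ξ Y' i) → (fun Y => G (ξ Y)) ∈ S := by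
  classical
  obtain ⟨Y₀⟩ := ‹Nonempty Ω›
  by_cases hD : D ∩ B = ∅
  · refine ⟨{fun _ => true, fun _ => false}, by simpa [lwt, hD] using good_const, ?_⟩
    intro ξ _ h2
    have : (fun Y => G (ξ Y)) = fun _ => G (ξ Y₀) := by
      funext Y
      apply hG
      intro i hi
      apply h2
      intro hB
      have : i ∈ D ∩ B := mem_inter.2 ⟨hi, hB⟩
      rw [hD] at this
      simp at this
    rw [this]
    exact mem_const _
  · refine ⟨((univ : Finset (Bool → Bool)) ×ˢ (univ : Finset ({i // i ∈ D \ B} → Bool))).image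
      (fun p => fun Y => p.1 (G (fun i => if h : i ∈ D \ B then p.2 ⟨i, h⟩ else α Y i))),
      ⟨?_, ?_, ?_⟩, ?_⟩
    · intro F hF ψ
      simp only [mem_image, mem_product, mem_univ, true_and, Prod.exists] at hF ⊢
      obtain ⟨ψ', τ, rfl⟩ := hF
      exact ⟨fun b => ψ (ψ' b), τ, rfl⟩
    · intro h
      exfalso
      simp only [lwt, hD, if_false, card_eq_zero] at h
      rw [h] at hD
      simp at hD
    · have hne : (D ∩ B).Nonempty := nonempty_iff_ne_empty.2 hD
      have h1 : 1 ≤ (D ∩ B).card := hne.card_pos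
      have h2 : (D \ B).card + (D ∩ B).card = D.card := card_sdiff_add_card_inter D B
      have h3 : lwt B D = D.card := by simp [lwt, hD]
      rw [h3, if_neg (by omega)]
      refine card_image_le.trans ?_
      rw [card_product, card_univ, card_univ]
      simp only [Fintype.card_fun, Fintype.card_bool, Fintype.card_coe]
      calc 2 ^ 2 * 2 ^ (D \ B).card = 2 ^ (2 + (D \ B).card) := by rw [pow_add]
        _ ≤ 2 ^ (2 * (2 * D.card - 1)) := Nat.pow_le_pow_right (by norm_num) (by omega)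
        _ = 4 ^ (2 * D.card - 1) := by rw [pow_mul]; norm_num
    · intro ξ h1 h2
      simp only [mem_image, mem_product, mem_univ, true_and, Prod.exists]
      refine ⟨id, fun i => ξ Y₀ i, ?_⟩
      funext Y
      apply hG
      intro i hi
      by_cases hB : i ∈ B
      · have : i ∉ D \ B := by simp [hB]
        simp only [this, dite_false]
        exact (h1 Y i hB).symm
      · have : i ∈ D \ B := mem_sdiff.2 ⟨hi, hB⟩
        simp only [this, dite_true]
        exact h2 Y₀ Y i hB

end Family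

end Pool.Agent.H559R2.Sharing
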