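import Mathlib
import Pool.Agent.H559R2.SharingCore

open Finset

namespace Pool.Agent.H559R2.Sharing

variable {n q : ℕ}

/-- The weight of local sources (relative to the block `B`). -/
noncomputable def lwtSrc (C : Circuit n q) (K : ℕ) (B : Finset (Fin n ⊕ Fin q)) :
    Src n q C.size → ℕ
  | Sum.inl i => lwt B {i}
  | Sum.inr j => if (C.supp j).card ≤ K then lwt B (C.supp j) else 0

/-- The weight of a source, given the weights of the gates. -/
noncomputable def wtOf (C : Circuit n q) (K : ℕ) (B : Finset (Fin n ⊕ Fin q))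
    (R : Finset (Fin C.size)) (ℓ : Fin C.size → ℕ) : Src n q C.size → ℕ
  | Sum.inl i => lwt B {i}
  | Sum.inr j => if (C.supp j).card ≤ K then lwt B (C.supp j) else if j ∈ R then 0 else ℓ j

/-- The cut set: the gates above more than `K` variables that are shared, or the output. -/
noncomputable def cutSet (C : Circuit n q) (K : ℕ) : Finset (Fin C.size) :=
  univ.filter fun j => K < (C.supp j).card ∧ (2 ≤ C.fanOut j ∨ j = C.out)

/-- Source values when the gates in `R` are replaced by guessed constants. -/
def cutSrc {s : ℕ} (R : Finset (Fin s)) (ξ : Fin n ⊕ Fin q → Bool)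
    (a : {j // j ∈ R} → Bool) (v : Fin s → Bool) : Src n q s → Bool
  | Sum.inl i => ξ i
  | Sum.inr j => if h : j ∈ R then a ⟨j, h⟩ else v j

lemma exists_cutRun (C : Circuit n q) (R : Finset (Fin C.size)) (ξ : Fin n ⊕ Fin q → Bool)
    (a : {j // j ∈ R} → Bool) :
    ∃ v : Fin C.size → Bool, ∀ i, v i = (C.gate i).eval (cutSrc R ξ a v) := by
  apply exists_fixed (fun i v => (C.gate i).eval (cutSrc R ξ a v))
  intro i v v' h
  apply Gate.eval_congr
  intro b hb
  rcases b with b | b
  · rfl
  · simp only [cutSrc]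
    split_ifs
    · rfl
    · exact h b (C.acyclic i b hb)

lemma exists_weights (C : Circuit n q) (K : ℕ) (B : Finset (Fin n ⊕ Fin q))
    (R : Finset (Fin C.size)) :
    ∃ ℓ : Fin C.size → ℕ, ∀ i, ℓ i = if (C.supp i).card ≤ K then 0 else
      ((C.gate i).wires.map (wtOf C K B R ℓ)).sum := by
  apply exists_fixed (fun i ℓ => if (C.supp i).card ≤ K then 0 else
      ((C.gate i).wires.map (wtOf C K B R ℓ)).sum)
  intro i v v' h
  beta_reduce
  split_ifs
  · rfl
  · congr 1
    apply List.map_congr_left
    intro b hb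
    rcases b with b | b
    · rfl
    · simp only [wtOf]
      split_ifs
      · rfl
      · rfl
      · exact h b (C.acyclic i b hb)

lemma not_mem_cutSet {C : Circuit n q} {K : ℕ} {j : Fin C.size} (h : (C.supp j).card ≤ K) :
    j ∉ cutSet C K := by
  simp only [cutSet, mem_filter, mem_univ, true_and, not_and]
  intro h; omega

/-- Local gates have their true values in every cut run. -/
lemma local_val (C : Circuit n q) (K : ℕ) (ξ : Fin n ⊕ Fin q → Bool)
    (a : {j // j ∈ cutSet C K} → Bool) (v : Fin C.size → Bool)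
    (hv : ∀ i, v i = (C.gate i).eval (cutSrc (cutSet C K) ξ a v)) :
    ∀ (m : ℕ) (j : Fin C.size), j.val < m → (C.supp j).card ≤ K → v j = C.val ξ j := by
  intro m
  induction m with
  | zero => intro j hj; exact absurd hj (Nat.not_lt_zero _)
  | succ m ih =>
    intro j hj hK
    rw [hv j, C.val_spec ξ j]
    apply Gate.eval_congr
    intro b hb
    rcases b with b | b
    · rfl
    · have hbK : (C.supp b).card ≤ K := (card_le_card (supp_sub_of_wire C hb)).trans hK
      simp only [cutSrc, not_mem_cutSet hbK, dite_false, Sum.elim_inr]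
      have hlt : b.val < j.val := C.acyclic j b hb
      exact ih b (by omega) hbK

section Main

variable {Ω Z : Type*} [Fintype Ω] [DecidableEq Ω] [Nonempty Ω]

/-- Families for gates and sources. -/
lemma gate_family (C : Circuit n q) (K : ℕ) (B : Finset (Fin n ⊕ Fin q))
    (x : Z → Ω → Fin n ⊕ Fin q → Bool) (α : Ω → Fin n ⊕ Fin q → Bool)
    (hx : ∀ z Y, ∀ i ∈ B, x z Y i = α Y i)
    (hx' : ∀ z Y Y', ∀ i ∉ B, x z Y i = x z Y' i)
    (ℓ : Fin C.size → ℕ)
    (hℓ : ∀ i, ℓ i = if (C.supp i).card ≤ K then 0 else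
      ((C.gate i).wires.map (wtOf C K B (cutSet C K) ℓ)).sum)
    (V : Z → ({j // j ∈ cutSet C K} → Bool) → Ω → Fin C.size → Bool)
    (hV : ∀ z a Y i, V z a Y i = (C.gate i).eval (cutSrc (cutSet C K) (x z Y) a (V z a Y))) :
    (∀ (m : ℕ) (j : Fin C.size), j.val < m → K < (C.supp j).card →
      ∃ S : Finset (Ω → Bool), Good (ℓ j) S ∧ ∀ z a, (fun Y => V z a Y j) ∈ S) ∧
    (∀ (m : ℕ) (b : Src n q C.size), (∀ j, b = Sum.inr j → j.val < m) →
      ∃ S : Finset (Ω → Bool), Good (wtOf C K B (cutSet C K) ℓ b) S ∧
        ∀ z a, (fun Y => cutSrc (cutSet C K) (x z Y) a (V z a Y) b) ∈ S) := by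
  classical
  -- sources from gates
  have src_of_gate : ∀ m, (∀ (j : Fin C.size), j.val < m → K < (C.supp j).card →
      ∃ S : Finset (Ω → Bool), Good (ℓ j) S ∧ ∀ z a, (fun Y => V z a Y j) ∈ S) →
      (∀ (b : Src n q C.size), (∀ j, b = Sum.inr j → j.val < m) →
      ∃ S : Finset (Ω → Bool), Good (wtOf C K B (cutSet C K) ℓ b) S ∧
        ∀ z a, (fun Y => cutSrc (cutSet C K) (x z Y) a (V z a Y) b) ∈ S) := by
    intro m hm b hb
    rcases b with i | j
    · obtain ⟨S, hS, hmem⟩ := good_local B {i} (fun ξ => ξ i)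
        (fun ξ ξ' h => h i (mem_singleton_self i)) α
      refine ⟨S, hS, ?_⟩
      intro z a
      exact hmem (x z) (hx z) (hx' z)
    · by_cases hloc : (C.supp j).card ≤ K
      · obtain ⟨S, hS, hmem⟩ := good_local B (C.supp j) (fun ξ => C.val ξ j)
          (fun ξ ξ' h => val_congr C ξ ξ' (j.val + 1) j (Nat.lt_succ_self _) h) α
        refine ⟨S, by simpa [wtOf, hloc] using hS, ?_⟩
        intro z a
        have : (fun Y => cutSrc (cutSet C K) (x z Y) a (V z a Y) (Sum.inr j)) =
            fun Y => C.val (x z Y) j := by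
          funext Y
          simp only [cutSrc, not_mem_cutSet hloc, dite_false]
          exact local_val C K (x z Y) a _ (hV z a Y) (j.val + 1) j (Nat.lt_succ_self _) hloc
        rw [this]
        exact hmem (x z) (hx z) (hx' z)
      · by_cases hR : j ∈ cutSet C K
        · refine ⟨{fun _ => true, fun _ => false}, ?_, ?_⟩
          · have : wtOf C K B (cutSet C K) ℓ (Sum.inr j) = 0 := by
              simp [wtOf, hloc, hR]
            rw [this]; exact good_const
          · intro z a
            simp only [cutSrc, hR, dite_true]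
            exact mem_const _
        · obtain ⟨S, hS, hmem⟩ := hm j (hb j rfl) (by omega)
          refine ⟨S, by simpa [wtOf, hloc, hR] using hS, ?_⟩
          intro z a
          simp only [cutSrc, hR, dite_false]
          exact hmem z a
  have gates : ∀ (m : ℕ) (j : Fin C.size), j.val < m → K < (C.supp j).card →
      ∃ S : Finset (Ω → Bool), Good (ℓ j) S ∧ ∀ z a, (fun Y => V z a Y j) ∈ S := by
    intro m
    induction m with
    | zero => intro j hj; exact absurd hj (Nat.not_lt_zero _)
    | succ m ih =>
      intro j hj hK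
      have hsrc := src_of_gate j.val (fun j' hj' hK' => ih j' (by omega) hK')
      have hacy := C.acyclic j
      have hℓj := hℓ j
      rw [if_neg (by omega)] at hℓj
      have hVj : ∀ z a Y, V z a Y j =
        (C.gate j).eval (cutSrc (cutSet C K) (x z Y) a (V z a Y)) := fun z a Y => hV z a Y j
      generalize C.gate j = g at hacy hℓj hVj
      cases g with
      | unary φ b =>
        obtain ⟨S, hS, hmem⟩ := hsrc b (fun j' hj' => hacy j' (by simp [Gate.wires, hj']))
        refine ⟨S, by simpa [hℓj, Gate.wires] using hS, ?_⟩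
        intro z a
        have : (fun Y => V z a Y j) =
            fun Y => φ (cutSrc (cutSet C K) (x z Y) a (V z a Y) b) := by
          funext Y; rw [hVj]; rfl
        rw [this]
        exact hS.closed _ (hmem z a) φ
      | binary φ b c =>
        obtain ⟨S₁, hS₁, hmem₁⟩ := hsrc b (fun j' hj' => hacy j' (by simp [Gate.wires, hj']))
        obtain ⟨S₂, hS₂, hmem₂⟩ := hsrc c (fun j' hj' => hacy j' (by simp [Gate.wires, hj']))
        obtain ⟨S, hS, hmem⟩ := good_binary φ hS₁ hS₂
        refine ⟨S, by simpa [hℓj, Gate.wires] using hS, ?_⟩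
        intro z a
        have : (fun Y => V z a Y j) =
            fun Y => φ (cutSrc (cutSet C K) (x z Y) a (V z a Y) b)
              (cutSrc (cutSet C K) (x z Y) a (V z a Y) c) := by
          funext Y; rw [hVj]; rfl
        rw [this]
        exact hmem _ (hmem₁ z a) _ (hmem₂ z a)
  exact ⟨gates, fun m => src_of_gate m (gates m)⟩

/-- The family of accepted sets obtained by guessing the values of the cut gates. -/
theorem exists_family (C : Circuit n q) (K : ℕ) (B : Finset (Fin n ⊕ Fin q))
    (x : Z → Ω → Fin n → Bool) (α : Ω → Fin n ⊕ Fin q → Bool)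
    (hx : ∀ z (w : Fin q → Bool) Y, ∀ i ∈ B, Sum.elim (x z Y) w i = α Y i)
    (hx' : ∀ z (w : Fin q → Bool) Y Y', ∀ i ∉ B, Sum.elim (x z Y) w i = Sum.elim (x z Y') w i)
    (ℓ : Fin C.size → ℕ)
    (hℓ : ∀ i, ℓ i = if (C.supp i).card ≤ K then 0 else
      ((C.gate i).wires.map (wtOf C K B (cutSet C K) ℓ)).sum)
    (f : (Fin n → Bool) → Bool) (hf : C.Computes f) :
    ∃ H : Finset (Ω → Bool),
      H.card ≤ 2 ^ ((cutSet C K).card + 1) *
        16 ^ (∑ j ∈ cutSet C K, ℓ j + wtOf C K B (cutSet C K) ℓ (Sum.inr C.out)) ∧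
      ∀ z, ∃ h ∈ H, (∀ Y, h Y = true → f (x z Y) = true) ∧
        (univ.filter fun Y => f (x z Y) = true).card ≤
          2 ^ (q + (cutSet C K).card) * (univ.filter fun Y => h Y = true).card := by
  classical
  choose V hV using fun (z : Z × (Fin q → Bool)) (a : {j // j ∈ cutSet C K} → Bool) (Y : Ω) =>
    exists_cutRun C (cutSet C K) (Sum.elim (x z.1 Y) z.2) a
  obtain ⟨hgate, hsrc⟩ := gate_family C K B
    (fun (z : Z × (Fin q → Bool)) Y => Sum.elim (x z.1 Y) z.2) α
    (fun z Y i hi => hx z.1 z.2 Y i hi) (fun z Y Y' i hi => hx' z.1 z.2 Y Y' i hi) ℓ hℓ V hV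
  have hS : ∀ j : Fin C.size, j ∈ cutSet C K →
      ∃ S : Finset (Ω → Bool), Good (ℓ j) S ∧ ∀ z a, (fun Y => V z a Y j) ∈ S := by
    intro j hj
    refine hgate (j.val + 1) j (Nat.lt_succ_self _) ?_
    simp only [cutSet, mem_filter, mem_univ, true_and] at hj
    exact hj.1
  choose S hSgood hSmem using hS
  obtain ⟨So, hSo, hSomem⟩ := hsrc (C.out.val + 1) (Sum.inr C.out) (by
    intro j hj
    have : C.out = j := by simpa using hj
    rw [← this]; exact Nat.lt_succ_self _)
  -- the family
  let T : Fin C.size → Finset (Ω → Bool) := fun j =>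
    if h : j ∈ cutSet C K then S j h else {fun _ => true}
  let H : Finset (Ω → Bool) := ((Fintype.piFinset T) ×ˢ So).image
    (fun p => fun Y => decide (∀ j, p.1 j Y = true) && p.2 Y)
  let hfun : Z × (Fin q → Bool) → ({j // j ∈ cutSet C K} → Bool) → Ω → Bool := fun z a Y =>
    decide (∀ j, (if h : j ∈ cutSet C K then (V z a Y j == a ⟨j, h⟩) else true) = true) &&
      cutSrc (cutSet C K) (Sum.elim (x z.1 Y) z.2) a (V z a Y) (Sum.inr C.out)
  have hmemH : ∀ z a, hfun z a ∈ H := by
    intro z a
    simp only [H, mem_image, mem_product, Prod.exists]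
    refine ⟨fun j Y => if h : j ∈ cutSet C K then (V z a Y j == a ⟨j, h⟩) else true,
      fun Y => cutSrc (cutSet C K) (Sum.elim (x z.1 Y) z.2) a (V z a Y) (Sum.inr C.out),
      ⟨?_, hSomem z a⟩, rfl⟩
    rw [Fintype.mem_piFinset]
    intro j
    by_cases h : j ∈ cutSet C K
    · simp only [T, h, dite_true]
      exact (hSgood j h).closed _ (hSmem j h z a) (fun b => b == a ⟨j, h⟩)
    · simp only [T, h, dite_false, mem_singleton]
  have hcard : H.card ≤ 2 ^ ((cutSet C K).card + 1) *
        16 ^ (∑ j ∈ cutSet C K, ℓ j + wtOf C K B (cutSet C K) ℓ (Sum.inr C.out)) := by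
    refine card_image_le.trans ?_
    rw [card_product, Fintype.card_piFinset]
    have h1 : ∏ j, (T j).card ≤ ∏ j, (if j ∈ cutSet C K then 2 * 16 ^ ℓ j else 1) := by
      apply prod_le_prod'
      intro j _
      by_cases h : j ∈ cutSet C K
      · simp only [T, h, dite_true, if_true]
        exact (hSgood j h).card_le
      · simp only [T, h, dite_false, if_false, card_singleton, le_refl]
    have h2 : ∏ j, (if j ∈ cutSet C K then 2 * 16 ^ ℓ j else 1) =
        2 ^ (cutSet C K).card * 16 ^ (∑ j ∈ cutSet C K, ℓ j) := by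
      rw [prod_ite_mem, univ_inter, prod_mul_distrib, prod_const, prod_pow_eq_pow_sum]
    calc (∏ j, (T j).card) * So.card
        ≤ (2 ^ (cutSet C K).card * 16 ^ (∑ j ∈ cutSet C K, ℓ j)) *
          (2 * 16 ^ (wtOf C K B (cutSet C K) ℓ (Sum.inr C.out))) :=
          Nat.mul_le_mul (h1.trans h2.le) hSo.card_le
      _ = _ := by rw [pow_succ, pow_add]; ring
  refine ⟨H, hcard, ?_⟩
  intro z
  -- soundness
  have hsound : ∀ w a Y, hfun (z, w) a Y = true → f (x z Y) = true := by
    intro w a Y h
    simp only [hfun, Bool.and_eq_true, decide_eq_true_eq] at h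
    obtain ⟨hc, ho⟩ := h
    have hc' : ∀ j (hj : j ∈ cutSet C K), V (z, w) a Y j = a ⟨j, hj⟩ := by
      intro j hj
      have := hc j
      simpa [hj] using this
    have hsv : ∀ b, cutSrc (cutSet C K) (Sum.elim (x z Y) w) a (V (z, w) a Y) b =
        Sum.elim (Sum.elim (x z Y) w) (V (z, w) a Y) b := by
      intro b
      rcases b with b | b
      · rfl
      · simp only [cutSrc, Sum.elim_inr]
        split_ifs with hb
        · exact (hc' b hb).symm
        · rfl
    rw [hf]
    refine ⟨w, V (z, w) a Y, ?_, ?_⟩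
    · intro i
      rw [hV (z, w) a Y i]
      exact Gate.eval_congr _ (fun b _ => hsv b)
    · rw [hsv] at ho
      exact ho
  -- completeness
  have hcomp : ∀ Y, f (x z Y) = true →
      ∃ wa : (Fin q → Bool) × ({j // j ∈ cutSet C K} → Bool),
      hfun (z, wa.1) wa.2 Y = true := by
    intro Y h
    rw [hf] at h
    obtain ⟨w, v, hrun, hout⟩ := h
    refine ⟨(w, fun j => v j), ?_⟩
    have hsv : ∀ b, cutSrc (cutSet C K) (Sum.elim (x z Y) w)
        (fun j : {j // j ∈ cutSet C K} => v j) v b = Sum.elim (Sum.elim (x z Y) w) v b := by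
      intro b
      rcases b with b | b
      · rfl
      · simp only [cutSrc, Sum.elim_inr]
        split_ifs <;> rfl
    have hVv : V (z, w) (fun j : {j // j ∈ cutSet C K} => v j) Y = v := by
      have key : ∀ m : ℕ, ∀ i : Fin C.size, i.val < m →
          V (z, w) (fun j : {j // j ∈ cutSet C K} => v j) Y i = v i := by
        intro m
        induction m with
        | zero => intro i hi; exact absurd hi (Nat.not_lt_zero _)
        | succ m ih =>
          intro i hi
          rw [hV, hrun i]
          apply Gate.eval_congr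
          intro b hb
          rw [← hsv]
          rcases b with b | b
          · rfl
          · simp only [cutSrc]
            have hlt : b.val < i.val := C.acyclic i b hb
            split_ifs
            · rfl
            · exact ih b (by omega)
      funext i
      exact key C.size i i.isLt
    simp only [hfun, Bool.and_eq_true, decide_eq_true_eq]
    rw [hVv]
    refine ⟨?_, ?_⟩
    · intro j
      split_ifs <;> simp
    · rw [hsv]; exact hout
  -- pigeonhole
  by_contra hcon
  push Not at hcon
  have hlt : ∀ wa : (Fin q → Bool) × ({j // j ∈ cutSet C K} → Bool),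
      2 ^ (q + (cutSet C K).card) *
        (univ.filter fun Y => hfun (z, wa.1) wa.2 Y = true).card <
        (univ.filter fun Y => f (x z Y) = true).card := by
    intro wa
    exact hcon _ (hmemH (z, wa.1) wa.2) (hsound wa.1 wa.2)
  have hsub : (univ.filter fun Y => f (x z Y) = true) ⊆
      (univ : Finset ((Fin q → Bool) × ({j // j ∈ cutSet C K} → Bool))).biUnion
        (fun wa => univ.filter fun Y => hfun (z, wa.1) wa.2 Y = true) := by
    intro Y hY
    simp only [mem_filter, mem_univ, true_and] at hY
    obtain ⟨wa, hwa⟩ := hcomp Y hY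
    simp only [mem_biUnion, mem_filter, mem_univ, true_and]
    exact ⟨wa, hwa⟩
  have hsum := (card_le_card hsub).trans card_biUnion_le
  have hN : (univ : Finset ((Fin q → Bool) × ({j // j ∈ cutSet C K} → Bool))).card =
      2 ^ (q + (cutSet C K).card) := by
    rw [card_univ]
    simp [Fintype.card_prod, pow_add]
  have hmul : 2 ^ (q + (cutSet C K).card) *
      ∑ wa : (Fin q → Bool) × ({j // j ∈ cutSet C K} → Bool),
        (univ.filter fun Y => hfun (z, wa.1) wa.2 Y = true).card <
      2 ^ (q + (cutSet C K).card) * (univ.filter fun Y => f (x z Y) = true).card := by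
    rw [mul_sum]
    calc ∑ wa : (Fin q → Bool) × ({j // j ∈ cutSet C K} → Bool),
        2 ^ (q + (cutSet C K).card) *
          (univ.filter fun Y => hfun (z, wa.1) wa.2 Y = true).card
        < ∑ wa : (Fin q → Bool) × ({j // j ∈ cutSet C K} → Bool),
          (univ.filter fun Y => f (x z Y) = true).card := by
          apply sum_lt_sum_of_nonempty univ_nonempty
          intro wa _
          exact hlt wa
      _ = 2 ^ (q + (cutSet C K).card) * (univ.filter fun Y => f (x z Y) = true).card := by
          rw [sum_const, hN, smul_eq_mul]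
  have := Nat.lt_of_mul_lt_mul_left hmul
  omega

end Main

end Pool.Agent.H559R2.Sharing
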