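import Mathlib
import Pool.Agent.H559R2.SharingCount

open Finset

namespace Pool.Agent.H559R2.Sharing

variable {n q : ℕ}

/-- The extra weight of a non-local, non-cut gate. -/
noncomputable def extra (C : Circuit n q) (K : ℕ) (ℓ : Fin C.size → ℕ) (h : Fin C.size) : ℕ :=
  if (C.supp h).card ≤ K then 0 else if h ∈ cutSet C K then 0 else ℓ h

lemma sum_wt_eq (C : Circuit n q) (K : ℕ) (B : Finset (Fin n ⊕ Fin q)) (ℓ : Fin C.size → ℕ)
    (l : List (Src n q C.size)) :
    (l.map (wtOf C K B (cutSet C K) ℓ)).sum = (l.map (lwtSrc C K B)).sum +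
      ∑ h, l.countP (fun a => a = Sum.inr h) * extra C K ℓ h := by
  classical
  induction l with
  | nil => simp
  | cons b l ih =>
    simp only [List.map_cons, List.sum_cons, ih, List.countP_cons]
    rcases b with b | b
    · simp [wtOf, lwtSrc]; ring
    · have h1 : wtOf C K B (cutSet C K) ℓ (Sum.inr b) =
          lwtSrc C K B (Sum.inr b) + extra C K ℓ b := by
        simp only [wtOf, lwtSrc, extra]
        split_ifs <;> simp
      have h2 : ∑ h, (List.countP (fun a => decide (a = Sum.inr h)) l +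
          if (decide ((Sum.inr b : Src n q C.size) = Sum.inr h)) = true
            then 1 else 0) * extra C K ℓ h =
          ∑ h, List.countP (fun a => decide (a = Sum.inr h)) l * extra C K ℓ h +
            extra C K ℓ b := by
        simp only [add_mul, sum_add_distrib]
        congr 1
        rw [sum_eq_single b]
        · simp
        · intro h _ hne
          simp [Ne.symm hne]
        · intro h; exact absurd (mem_univ _) h
      rw [h1, h2]; ring

lemma weights_sum (C : Circuit n q) (K : ℕ) (B : Finset (Fin n ⊕ Fin q)) (ℓ : Fin C.size → ℕ)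
    (hℓ : ∀ i, ℓ i = if (C.supp i).card ≤ K then 0 else
      ((C.gate i).wires.map (wtOf C K B (cutSet C K) ℓ)).sum) :
    ∑ j ∈ cutSet C K, ℓ j ≤ ∑ j ∈ univ.filter (fun j => K < (C.supp j).card),
      ((C.gate j).wires.map (lwtSrc C K B)).sum := by
  classical
  -- bound on all gates
  have h1 : ∑ j, ℓ j ≤ ∑ j ∈ univ.filter (fun j => K < (C.supp j).card),
      ((C.gate j).wires.map (lwtSrc C K B)).sum + ∑ h, C.fanOut h * extra C K ℓ h := by
    have : ∀ j, ℓ j ≤ (if K < (C.supp j).card then
        ((C.gate j).wires.map (lwtSrc C K B)).sum else 0) +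
        ∑ h, (C.gate j).wires.countP (fun a => a = Sum.inr h) * extra C K ℓ h := by
      intro j
      rw [hℓ j]
      split_ifs
      · exact Nat.zero_le _
      · exact Nat.zero_le _
      · rw [sum_wt_eq]
      · omega
    calc ∑ j, ℓ j ≤ ∑ j, ((if K < (C.supp j).card then
        ((C.gate j).wires.map (lwtSrc C K B)).sum else 0) +
        ∑ h, (C.gate j).wires.countP (fun a => a = Sum.inr h) * extra C K ℓ h) :=
          sum_le_sum (fun j _ => this j)
      _ = _ := by
        rw [sum_add_distrib, sum_filter]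
        congr 1
        rw [sum_comm]
        apply sum_congr rfl
        intro h _
        rw [← sum_mul]
        rfl
  have h2 : ∑ h, C.fanOut h * extra C K ℓ h ≤ ∑ h ∈ univ.filter (fun h => h ∉ cutSet C K), ℓ h := by
    rw [sum_filter]
    apply sum_le_sum
    intro h _
    by_cases hR : h ∈ cutSet C K
    · simp [extra, hR]
    · simp only [hR, not_false_eq_true, if_true]
      by_cases hl : (C.supp h).card ≤ K
      · simp [extra, hl]
      · simp only [extra, hl, hR, if_false]
        have hf : C.fanOut h ≤ 1 := by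
          simp only [cutSet, mem_filter, mem_univ, true_and, not_and, not_or] at hR
          have := (hR (by omega)).1
          omega
        calc C.fanOut h * ℓ h ≤ 1 * ℓ h := Nat.mul_le_mul_right _ hf
          _ = ℓ h := one_mul _
  have h3 : ∑ j, ℓ j = ∑ j ∈ cutSet C K, ℓ j +
      ∑ h ∈ univ.filter (fun h => h ∉ cutSet C K), ℓ h := by
    rw [← sum_filter_add_sum_filter_not univ (fun j => j ∈ cutSet C K)]
    congr 1
    apply sum_congr _ (fun _ _ => rfl)
    ext j; simp
  omega

lemma wtOf_out (C : Circuit n q) (K : ℕ) (B : Finset (Fin n ⊕ Fin q)) (ℓ : Fin C.size → ℕ) :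
    wtOf C K B (cutSet C K) ℓ (Sum.inr C.out) = lwtSrc C K B (Sum.inr C.out) := by
  simp only [wtOf, lwtSrc]
  split_ifs with h1 h2
  · rfl
  · rfl
  · exfalso
    apply h2
    simp only [cutSet, mem_filter, mem_univ, true_and, or_true, and_true]
    omega

lemma sum_lwt_le {V ι : Type*} [DecidableEq V] [DecidableEq ι] (G : Finset ι) (B : ι → Finset V)
    (hB : ∀ g ∈ G, ∀ g' ∈ G, g ≠ g' → Disjoint (B g) (B g')) (D : Finset V) :
    ∑ g ∈ G, lwt (B g) D ≤ D.card ^ 2 := by
  classical
  have h2 : ∑ g ∈ G, (D ∩ B g).card ≤ D.card := by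
    rw [← card_biUnion]
    · apply card_le_card
      intro i hi
      simp only [mem_biUnion, mem_inter] at hi
      obtain ⟨_, _, h, _⟩ := hi
      exact h
    · intro g hg g' hg' hne
      exact (hB g hg g' hg' hne).mono inter_subset_right inter_subset_right
  have h3 : ∀ g ∈ G, lwt (B g) D ≤ D.card * (D ∩ B g).card := by
    intro g _
    unfold lwt
    split_ifs with h
    · exact Nat.zero_le _
    · have : 1 ≤ (D ∩ B g).card := (nonempty_iff_ne_empty.2 h).card_pos
      nlinarith
  calc ∑ g ∈ G, lwt (B g) D ≤ ∑ g ∈ G, D.card * (D ∩ B g).card := sum_le_sum h3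
    _ = D.card * ∑ g ∈ G, (D ∩ B g).card := by rw [mul_sum]
    _ ≤ D.card * D.card := Nat.mul_le_mul_left _ h2
    _ = D.card ^ 2 := by ring

lemma sum_lwtSrc_le {ι : Type*} [DecidableEq ι] (C : Circuit n q) {K : ℕ} (hK : 1 ≤ K)
    (G : Finset ι) (B : ι → Finset (Fin n ⊕ Fin q))
    (hB : ∀ g ∈ G, ∀ g' ∈ G, g ≠ g' → Disjoint (B g) (B g')) (b : Src n q C.size) :
    ∑ g ∈ G, lwtSrc C K (B g) b ≤ K ^ 2 := by
  rcases b with b | b
  · simp only [lwtSrc]
    refine (sum_lwt_le G B hB _).trans ?_
    rw [card_singleton]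
    exact Nat.pow_le_pow_left hK 2
  · simp only [lwtSrc]
    split_ifs with h
    · refine (sum_lwt_le G B hB _).trans ?_
      exact Nat.pow_le_pow_left h 2
    · simp

/-- The total weight of a block. -/
noncomputable def blockWt (C : Circuit n q) (K : ℕ) (B : Finset (Fin n ⊕ Fin q)) : ℕ :=
  ∑ j ∈ univ.filter (fun j => K < (C.supp j).card), ((C.gate j).wires.map (lwtSrc C K B)).sum +
    lwtSrc C K B (Sum.inr C.out)

lemma sum_blockWt_le {ι : Type*} [DecidableEq ι] (C : Circuit n q) {K : ℕ} (hK : 1 ≤ K)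
    (G : Finset ι) (B : ι → Finset (Fin n ⊕ Fin q))
    (hB : ∀ g ∈ G, ∀ g' ∈ G, g ≠ g' → Disjoint (B g) (B g')) :
    ∑ g ∈ G, blockWt C K (B g) ≤ (2 * C.numGlobal K + 1) * K ^ 2 := by
  simp only [blockWt]
  rw [sum_add_distrib, sum_comm]
  have h1 : ∀ j, ∑ g ∈ G, ((C.gate j).wires.map (lwtSrc C K (B g))).sum ≤ 2 * K ^ 2 := by
    intro j
    generalize C.gate j = g
    cases g with
    | unary φ a =>
      simp only [Gate.wires, List.map_cons, List.map_nil, List.sum_cons, List.sum_nil, add_zero]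
      have := sum_lwtSrc_le C hK G B hB a
      omega
    | binary φ a b =>
      simp only [Gate.wires, List.map_cons, List.map_nil, List.sum_cons, List.sum_nil, add_zero]
      rw [sum_add_distrib]
      have h1 := sum_lwtSrc_le C hK G B hB a
      have h2 := sum_lwtSrc_le C hK G B hB b
      omega
  have h2 : ∑ j ∈ univ.filter (fun j => K < (C.supp j).card),
      ∑ g ∈ G, ((C.gate j).wires.map (lwtSrc C K (B g))).sum ≤
      C.numGlobal K * (2 * K ^ 2) := by
    calc _ ≤ ∑ _j ∈ univ.filter (fun j => K < (C.supp j).card), 2 * K ^ 2 :=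
          sum_le_sum (fun j _ => h1 j)
      _ = _ := by simp [Circuit.numGlobal]
  have h3 := sum_lwtSrc_le C hK G B hB (Sum.inr C.out)
  calc _ ≤ C.numGlobal K * (2 * K ^ 2) + K ^ 2 := Nat.add_le_add h2 h3
    _ = _ := by ring

/-- The cut set has at most `numShared + 1` elements. -/
lemma card_cutSet_le (C : Circuit n q) (K : ℕ) : (cutSet C K).card ≤ C.numShared K + 1 := by
  classical
  have : cutSet C K ⊆ (univ.filter fun j => K < (C.supp j).card ∧ 2 ≤ C.fanOut j) ∪ {C.out} := by
    intro j hj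
    simp only [cutSet, mem_filter, mem_univ, true_and, mem_union, mem_singleton] at hj ⊢
    rcases hj with ⟨h1, h2 | h2⟩
    · left; exact ⟨h1, h2⟩
    · right; exact h2
  refine (card_le_card this).trans ((card_union_le _ _).trans ?_)
  simp [Circuit.numShared]

/-! ### Correlation -/

/-- The sign of a bit. -/
def sgn (b : Bool) : ℤ := if b then -1 else 1

lemma sgn_mul_self (b : Bool) : sgn b * sgn b = 1 := by cases b <;> simp [sgn]

theorem code_bound {Ω Z : Type*} [Fintype Ω] [Nonempty Ω] [Fintype Z] [DecidableEq Z] (T : ℕ)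
    (F : Z → Ω → Bool) (z₀ : Z) (hz₀ : ∀ Y, F z₀ Y = false)
    (hcorr : ∀ z z', z ≠ z' →
      2 ^ (T + 4) * ∑ Y, sgn (F z Y) * sgn (F z' Y) ≤ (Fintype.card Ω : ℤ))
    (H : Finset (Ω → Bool))
    (hH : ∀ z, ∃ h ∈ H, (∀ Y, h Y = true → F z Y = true) ∧
        (univ.filter fun Y => F z Y = true).card ≤
          2 ^ T * (univ.filter fun Y => h Y = true).card) :
    Fintype.card Z ≤ H.card * 2 ^ (T + 3) + 1 := by
  classical
  have hΩ : 0 < Fintype.card Ω := Fintype.card_pos
  -- number of ones
  have hsum : ∀ g : Ω → Bool, ∑ Y, sgn (g Y) =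
      (Fintype.card Ω : ℤ) - 2 * ((univ.filter fun Y => g Y = true).card : ℤ) := by
    intro g
    have : ∀ Y, sgn (g Y) = 1 - 2 * (if g Y = true then 1 else 0) := by
      intro Y; cases g Y <;> simp [sgn]
    simp only [this]
    rw [sum_sub_distrib, ← mul_sum, sum_boole]
    simp
  have hones : ∀ z, z ≠ z₀ → (Fintype.card Ω : ℤ) ≤
      4 * ((univ.filter fun Y => F z Y = true).card : ℤ) := by
    intro z hz
    have h1 := hcorr z z₀ hz
    have h2 : ∑ Y, sgn (F z Y) * sgn (F z₀ Y) = ∑ Y, sgn (F z Y) := by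
      apply sum_congr rfl
      intro Y _
      rw [hz₀]; simp [sgn]
    rw [h2, hsum] at h1
    by_contra hcon
    push Not at hcon
    have hpos : (0 : ℤ) < Fintype.card Ω - 2 * ((univ.filter fun Y => F z Y = true).card : ℤ) := by
      have : (0 : ℤ) ≤ ((univ.filter fun Y => F z Y = true).card : ℤ) := by positivity
      linarith
    have h16 : (16 : ℤ) ≤ 2 ^ (T + 4) := by
      rw [pow_add]
      have : (1 : ℤ) ≤ 2 ^ T := one_le_pow₀ (by norm_num)
      linarith
    nlinarith
  choose hz hzH hzle hzcard using hH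
  -- fibers
  have hfib : ∀ h ∈ (univ.filter (fun z => z ≠ z₀)).image hz,
      ((univ.filter (fun z => z ≠ z₀)).filter (fun z => hz z = h)).card ≤ 2 ^ (T + 3) := by
    intro h hh
    set A := (univ.filter (fun z => z ≠ z₀)).filter (fun z => hz z = h) with hA
    obtain ⟨z₁, hz₁, hz₁h⟩ := mem_image.1 hh
    have hbig : (Fintype.card Ω : ℤ) ≤ 4 * 2 ^ T * ((univ.filter fun Y => h Y = true).card : ℤ) := by
      have h1 := hones z₁ (by simpa using hz₁)
      have h2 : ((univ.filter fun Y => F z₁ Y = true).card : ℤ) ≤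
          2 ^ T * ((univ.filter fun Y => h Y = true).card : ℤ) := by
        have := hzcard z₁
        rw [hz₁h] at this
        exact_mod_cast this
      linarith
    -- second moment
    have hsq : ((univ.filter fun Y => h Y = true).card : ℤ) * (A.card : ℤ) ^ 2 ≤
        ∑ Y, (∑ z ∈ A, sgn (F z Y)) ^ 2 := by
      have : ∑ Y ∈ univ.filter (fun Y => h Y = true), (∑ z ∈ A, sgn (F z Y)) ^ 2 ≤
          ∑ Y, (∑ z ∈ A, sgn (F z Y)) ^ 2 := by
        apply sum_le_sum_of_subset_of_nonneg (filter_subset _ _)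
        intro Y _ _
        positivity
      refine le_trans (le_of_eq ?_) this
      rw [sum_congr rfl (g := fun _ => (A.card : ℤ) ^ 2)]
      · simp
      · intro Y hY
        have hY' : h Y = true := by simpa using hY
        have : ∑ z ∈ A, sgn (F z Y) = -(A.card : ℤ) := by
          rw [sum_congr rfl (g := fun _ => (-1 : ℤ))]
          · simp
          · intro z hzA
            have hzh : hz z = h := (mem_filter.1 hzA).2
            have : F z Y = true := hzle z Y (by rw [hzh]; exact hY')
            simp [this, sgn]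
        rw [this]; ring
    have hexp : ∑ Y, (∑ z ∈ A, sgn (F z Y)) ^ 2 =
        ∑ z ∈ A, ∑ z' ∈ A, ∑ Y, sgn (F z Y) * sgn (F z' Y) := by
      have : ∀ Y, (∑ z ∈ A, sgn (F z Y)) ^ 2 = ∑ z ∈ A, ∑ z' ∈ A, sgn (F z Y) * sgn (F z' Y) := by
        intro Y; rw [sq, sum_mul_sum]
      simp only [this]
      rw [sum_comm]
      apply sum_congr rfl
      intro z _
      rw [sum_comm]
    have hbound : 2 ^ (T + 4) * ∑ z ∈ A, ∑ z' ∈ A, ∑ Y, sgn (F z Y) * sgn (F z' Y) ≤
        2 ^ (T + 4) * ((A.card : ℤ) * Fintype.card Ω) + (A.card : ℤ) ^ 2 * Fintype.card Ω := by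
      have hterm : ∀ z ∈ A, ∀ z' ∈ A, 2 ^ (T + 4) * ∑ Y, sgn (F z Y) * sgn (F z' Y) ≤
          (if z = z' then 2 ^ (T + 4) * (Fintype.card Ω : ℤ) else 0) + (Fintype.card Ω : ℤ) := by
        intro z _ z' _
        by_cases hzz : z = z'
        · subst hzz
          simp only [sgn_mul_self, if_true]
          simp
        · simp only [hzz, if_false, zero_add]
          exact hcorr z z' hzz
      calc 2 ^ (T + 4) * ∑ z ∈ A, ∑ z' ∈ A, ∑ Y, sgn (F z Y) * sgn (F z' Y)
          = ∑ z ∈ A, ∑ z' ∈ A, 2 ^ (T + 4) * ∑ Y, sgn (F z Y) * sgn (F z' Y) := by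
            rw [mul_sum]; apply sum_congr rfl; intro z _; rw [mul_sum]
        _ ≤ ∑ z ∈ A, ∑ z' ∈ A,
            ((if z = z' then 2 ^ (T + 4) * (Fintype.card Ω : ℤ) else 0) + (Fintype.card Ω : ℤ)) :=
            sum_le_sum (fun z hzA => sum_le_sum (fun z' hzA' => hterm z hzA z' hzA'))
        _ = 2 ^ (T + 4) * ((A.card : ℤ) * Fintype.card Ω) +
            (A.card : ℤ) ^ 2 * Fintype.card Ω := by
            simp only [sum_add_distrib, sum_const, nsmul_eq_mul]
            have : ∑ z ∈ A, ∑ z' ∈ A, (if z = z' then 2 ^ (T + 4) * (Fintype.card Ω : ℤ) else 0) =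
                ∑ z ∈ A, 2 ^ (T + 4) * (Fintype.card Ω : ℤ) := by
              apply sum_congr rfl
              intro z hzA
              rw [sum_ite_eq, if_pos hzA]
            rw [this]
            simp only [sum_const, nsmul_eq_mul]
            ring
    -- conclusion
    have hK : ((A.card : ℤ)) ^ 2 * (3 * Fintype.card Ω) ≤ 2 ^ (T + 4) * ((A.card : ℤ) * Fintype.card Ω) := by
      have h1 : 2 ^ (T + 4) * (((univ.filter fun Y => h Y = true).card : ℤ) * (A.card : ℤ) ^ 2) ≤
          2 ^ (T + 4) * ((A.card : ℤ) * Fintype.card Ω) + (A.card : ℤ) ^ 2 * Fintype.card Ω := by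
        refine le_trans ?_ hbound
        rw [← hexp]
        exact mul_le_mul_of_nonneg_left hsq (by positivity)
      have h2 : 4 * (Fintype.card Ω : ℤ) * (A.card : ℤ) ^ 2 ≤
          2 ^ (T + 4) * (((univ.filter fun Y => h Y = true).card : ℤ) * (A.card : ℤ) ^ 2) := by
        have h3 : 4 * (Fintype.card Ω : ℤ) ≤
            2 ^ (T + 4) * ((univ.filter fun Y => h Y = true).card : ℤ) := by
          have : (2 : ℤ) ^ (T + 4) = 4 * (4 * 2 ^ T) := by rw [pow_add]; ring
          rw [this]
          linarith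
        have h4 : (0 : ℤ) ≤ (A.card : ℤ) ^ 2 := by positivity
        calc 4 * (Fintype.card Ω : ℤ) * (A.card : ℤ) ^ 2
            ≤ (2 ^ (T + 4) * ((univ.filter fun Y => h Y = true).card : ℤ)) * (A.card : ℤ) ^ 2 :=
              mul_le_mul_of_nonneg_right h3 h4
          _ = _ := by ring
      linarith
    have hΩ' : (0 : ℤ) < Fintype.card Ω := by exact_mod_cast hΩ
    by_contra hcon
    push Not at hcon
    have hA0 : (0 : ℤ) < A.card := by
      have : 0 < A.card := by
        have : 0 < 2 ^ (T + 3) := by positivity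
        omega
      exact_mod_cast this
    have h5 : (3 : ℤ) * A.card ≤ 2 ^ (T + 4) := by
      have h6 : ((A.card : ℤ) * Fintype.card Ω) * (3 * A.card) ≤
          ((A.card : ℤ) * Fintype.card Ω) * 2 ^ (T + 4) := by
        calc ((A.card : ℤ) * Fintype.card Ω) * (3 * A.card)
            = ((A.card : ℤ)) ^ 2 * (3 * Fintype.card Ω) := by ring
          _ ≤ 2 ^ (T + 4) * ((A.card : ℤ) * Fintype.card Ω) := hK
          _ = _ := by ring
      exact le_of_mul_le_mul_left h6 (by positivity)
    have h7 : (2 : ℤ) ^ (T + 3) < A.card := by exact_mod_cast hcon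
    have h8 : (2 : ℤ) ^ (T + 4) = 2 * 2 ^ (T + 3) := by rw [pow_succ]; ring
    linarith
  have hcount := card_le_mul_card_image (univ.filter (fun z => z ≠ z₀)) (2 ^ (T + 3)) hfib
  have himg : ((univ.filter (fun z => z ≠ z₀)).image hz).card ≤ H.card := by
    apply card_le_card
    intro h hh
    obtain ⟨z, _, rfl⟩ := mem_image.1 hh
    exact hzH z
  have hall : Fintype.card Z = (univ.filter (fun z => z ≠ z₀)).card + 1 := by
    rw [filter_ne', card_erase_of_mem (mem_univ _), card_univ]
    have : 0 < Fintype.card Z := Fintype.card_pos_iff.2 ⟨z₀⟩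
    omega
  rw [hall]
  have : 2 ^ (T + 3) * ((univ.filter (fun z => z ≠ z₀)).image hz).card ≤ H.card * 2 ^ (T + 3) := by
    rw [mul_comm]
    exact Nat.mul_le_mul_right _ himg
  omega

end Pool.Agent.H559R2.Sharing
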