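import Mathlib
import Pool.Agent.H559R2.SharingWeights

open Finset

namespace Pool.Agent.H559R2.Sharing

/-! ### The explicit function -/

/-- The number of message bits. -/
def msgLen (N : ℕ) : ℕ := N / 2

/-- The least prime larger than `(msgLen N) ^ 2`. -/
def modulus (N : ℕ) : ℕ := Nat.find (Nat.exists_infinite_primes (msgLen N ^ 2 + 1))

/-- The number of binary digits of the modulus. -/
def width (N : ℕ) : ℕ := Nat.size (modulus N)

/-- The number of query blocks. -/
def numBlocks (N : ℕ) : ℕ := (N - msgLen N) / (2 * width N)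

/-- The `i`-th bit of `x` (`false` beyond the length of `x`). -/
def bitAt {N : ℕ} (x : Fin N → Bool) (i : ℕ) : Bool := if h : i < N then x ⟨i, h⟩ else false

/-- The evaluation point of block `j`, written in binary in the first half of the block. -/
def point {N : ℕ} (x : Fin N → Bool) (j : ℕ) : ℕ :=
  ∑ a ∈ range (width N), if bitAt x (msgLen N + 2 * width N * j + a) then 2 ^ a else 0

/-- The polynomial whose coefficients are the message bits, at the point of block `j`,
modulo the prime `modulus N`. -/
def polyValue {N : ℕ} (x : Fin N → Bool) (j : ℕ) : ℕ :=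
  (∑ i ∈ range (msgLen N), if bitAt x i then point x j ^ i else 0) % modulus N

/-- The explicit function: the parity, over all blocks, of the inner product of the binary
digits of `polyValue x j` with the second half of block `j`. -/
def hardFun (N : ℕ) (x : Fin N → Bool) : Bool :=
  decide (Odd (∑ j ∈ range (numBlocks N), ∑ a ∈ range (width N),
    if bitAt x (msgLen N + 2 * width N * j + width N + a) && (polyValue x j).testBit a
      then 1 else 0))

/-! ### The code -/

/-- The value of the message polynomial modulo `p`. -/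
def pv (p k : ℕ) (z : Fin k → Bool) (u : ℕ) : ℕ := (∑ i : Fin k, if z i then u ^ (i : ℕ) else 0) % p

lemma agree_card (p k : ℕ) [Fact p.Prime] (z z' : Fin k → Bool) (h : z ≠ z') :
    (univ.filter fun u : Fin p => pv p k z u = pv p k z' u).card ≤ k := by
  classical
  let Q : Polynomial (ZMod p) := ∑ i : Fin k,
    Polynomial.monomial (i : ℕ) ((if z i then (1 : ZMod p) else 0) - (if z' i then 1 else 0))
  have hcoeff : ∀ i : Fin k, Q.coeff i =
      (if z i then (1 : ZMod p) else 0) - (if z' i then 1 else 0) := by
    intro i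
    simp only [Q, Polynomial.finsetSum_coeff, Polynomial.coeff_monomial]
    rw [sum_eq_single i]
    · simp
    · intro j _ hne
      rw [if_neg]
      intro hh; exact hne (Fin.ext hh)
    · intro hh; exact absurd (mem_univ _) hh
  have hQ : Q ≠ 0 := by
    intro h0
    apply h
    funext i
    have := hcoeff i
    rw [h0, Polynomial.coeff_zero] at this
    cases hz : z i <;> cases hz' : z' i <;> rw [hz, hz'] at this <;> simp at this ⊢
  have hdeg : Q.natDegree < k := by
    by_cases hk : k = 0
    · subst hk
      exfalso
      apply h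
      funext i; exact i.elim0
    apply (Polynomial.natDegree_sum_le_of_forall_le _ _ (n := k - 1) ?_).trans_lt (by omega)
    intro i _
    refine (Polynomial.natDegree_monomial_le _).trans ?_
    have := i.isLt
    omega
  have hmap : (univ.filter fun u : Fin p => pv p k z u = pv p k z' u).card ≤
      Q.roots.toFinset.card := by
    apply card_le_card_of_injOn (fun u : Fin p => ((u : ℕ) : ZMod p))
    · intro u hu
      have hu' : pv p k z u = pv p k z' u := by simpa using hu
      simp only [mem_coe, Multiset.mem_toFinset, Polynomial.mem_roots hQ, Polynomial.IsRoot.def]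
      have h1 : ((pv p k z u : ℕ) : ZMod p) = ((pv p k z' u : ℕ) : ZMod p) := by rw [hu']
      simp only [pv, ZMod.natCast_mod] at h1
      push_cast at h1
      simp only [Q, Polynomial.eval_finsetSum, Polynomial.eval_monomial]
      rw [← sub_eq_zero, ← sum_sub_distrib] at h1
      refine Eq.trans ?_ h1
      apply sum_congr rfl
      intro i _
      split_ifs <;> simp
    · intro u _ v _ huv
      have h1 : ((u : ℕ) : ZMod p) = ((v : ℕ) : ZMod p) := huv
      rw [ZMod.natCast_eq_natCast_iff'] at h1
      rw [Nat.mod_eq_of_lt u.isLt, Nat.mod_eq_of_lt v.isLt] at h1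
      exact Fin.ext h1
  have := (Multiset.toFinset_card_le Q.roots).trans (Polynomial.card_roots' Q)
  omega

/-- The sign of the inner product of the digits of `pv p k z y.1` with `y.2`. -/
def csgn (p k L : ℕ) (z : Fin k → Bool) (y : Fin p × (Fin L → Bool)) : ℤ :=
  ∏ a : Fin L, if y.2 a && (pv p k z y.1).testBit a then -1 else 1

lemma csgn_sum (p k L : ℕ) (hL : p ≤ 2 ^ L) (hp : 0 < p) (z z' : Fin k → Bool) :
    ∑ y, csgn p k L z y * csgn p k L z' y =
      2 ^ L * ((univ.filter fun u : Fin p => pv p k z u = pv p k z' u).card : ℤ) := by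
  classical
  rw [Fintype.sum_prod_type]
  have h1 : ∀ u : Fin p, ∑ v : Fin L → Bool, csgn p k L z (u, v) * csgn p k L z' (u, v) =
      if pv p k z u = pv p k z' u then 2 ^ L else 0 := by
    intro u
    simp only [csgn, ← prod_mul_distrib]
    have h2 : ∑ v : Fin L → Bool, ∏ a : Fin L,
        ((if v a && (pv p k z u).testBit a then (-1 : ℤ) else 1) *
          (if v a && (pv p k z' u).testBit a then (-1 : ℤ) else 1)) =
        ∏ a : Fin L, ∑ b : Bool,
        ((if b && (pv p k z u).testBit a then (-1 : ℤ) else 1) *
          (if b && (pv p k z' u).testBit a then (-1 : ℤ) else 1)) := by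
      rw [prod_univ_sum, Fintype.piFinset_univ]
    rw [h2]
    have h3 : ∀ a : Fin L, ∑ b : Bool,
        ((if b && (pv p k z u).testBit a then (-1 : ℤ) else 1) *
          (if b && (pv p k z' u).testBit a then (-1 : ℤ) else 1)) =
        if (pv p k z u).testBit a = (pv p k z' u).testBit a then 2 else 0 := by
      intro a
      rw [Fintype.sum_bool]
      cases (pv p k z u).testBit a <;> cases (pv p k z' u).testBit a <;> simp
    simp only [h3]
    split_ifs with heq
    · rw [heq]; simp
    · -- some digit differs
      have hlt : ∀ z : Fin k → Bool, pv p k z u < 2 ^ L := fun z =>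
        (Nat.mod_lt _ hp).trans_le hL
      have : ∃ a : Fin L, (pv p k z u).testBit a ≠ (pv p k z' u).testBit a := by
        by_contra hcon
        push Not at hcon
        apply heq
        apply Nat.eq_of_testBit_eq
        intro i
        by_cases hi : i < L
        · exact hcon ⟨i, hi⟩
        · have hpow : 2 ^ L ≤ 2 ^ i := Nat.pow_le_pow_right (by norm_num) (by omega)
          rw [Nat.testBit_lt_two_pow ((hlt z).trans_le hpow),
            Nat.testBit_lt_two_pow ((hlt z').trans_le hpow)]
      obtain ⟨a, ha⟩ := this
      apply prod_eq_zero (mem_univ a)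
      rw [if_neg ha]
  simp only [h1]
  rw [sum_ite, sum_const_zero, add_zero, sum_const, nsmul_eq_mul, mul_comm]

lemma csgn_corr (p k L w T : ℕ) [Fact p.Prime] (hL : p ≤ 2 ^ L) (hk : k ^ 2 ≤ p)
    (hw : 2 ^ (T + 4) ≤ k ^ w) (z z' : Fin k → Bool) (h : z ≠ z') :
    2 ^ (T + 4) * ∑ Y : Fin w → Fin p × (Fin L → Bool),
      (∏ b, csgn p k L z (Y b)) * (∏ b, csgn p k L z' (Y b)) ≤
      (Fintype.card (Fin w → Fin p × (Fin L → Bool)) : ℤ) := by
  classical
  have hp : 0 < p := (Fact.out : p.Prime).pos
  have h1 : ∑ Y : Fin w → Fin p × (Fin L → Bool),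
      (∏ b, csgn p k L z (Y b)) * (∏ b, csgn p k L z' (Y b)) =
      (∑ y, csgn p k L z y * csgn p k L z' y) ^ w := by
    rw [Fintype.sum_pow]
    apply sum_congr rfl
    intro Y _
    rw [prod_mul_distrib]
  rw [h1, csgn_sum p k L hL hp]
  have hag := agree_card p k z z' h
  set m := (univ.filter fun u : Fin p => pv p k z u = pv p k z' u).card with hm
  have hcard : Fintype.card (Fin w → Fin p × (Fin L → Bool)) = (p * 2 ^ L) ^ w := by
    simp [Fintype.card_prod]
  rw [hcard]
  have : 2 ^ (T + 4) * (2 ^ L * m) ^ w ≤ (p * 2 ^ L) ^ w := by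
    calc 2 ^ (T + 4) * (2 ^ L * m) ^ w ≤ k ^ w * (2 ^ L * k) ^ w := by gcongr
      _ = (k ^ 2 * 2 ^ L) ^ w := by rw [← mul_pow]; ring
      _ ≤ (p * 2 ^ L) ^ w := by gcongr
  exact_mod_cast this

end Pool.Agent.H559R2.Sharing
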