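import Mathlib
import Pool.Agent.H559R2.SharingCode

open Finset

namespace Pool.Agent.H559R2.Sharing

lemma modulus_prime (N : ℕ) : (modulus N).Prime :=
  (Nat.find_spec (Nat.exists_infinite_primes (msgLen N ^ 2 + 1))).2

lemma modulus_gt (N : ℕ) : msgLen N ^ 2 < modulus N :=
  (Nat.find_spec (Nat.exists_infinite_primes (msgLen N ^ 2 + 1))).1

lemma modulus_le (N : ℕ) (h : msgLen N ≠ 0) : modulus N ≤ 2 * msgLen N ^ 2 := by
  obtain ⟨p, hp, hlt, hle⟩ := Nat.exists_prime_lt_and_le_two_mul (msgLen N ^ 2) (by positivity)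
  exact (Nat.find_min' _ ⟨hlt, hp⟩).trans hle

lemma modulus_lt_two_pow (N : ℕ) : modulus N < 2 ^ width N := Nat.lt_size_self _

lemma width_pos (N : ℕ) : 0 < width N := Nat.size_pos.2 (modulus_prime N).pos

lemma blocks_le (N : ℕ) : 2 * width N * numBlocks N ≤ N - msgLen N := by
  unfold numBlocks
  exact Nat.mul_div_le _ _

lemma pos_lt {N j o : ℕ} (hj : j < numBlocks N) (ho : o < 2 * width N) :
    msgLen N + 2 * width N * j + o < N := by
  have h1 := blocks_le N
  have h2 : 2 * width N * (j + 1) ≤ 2 * width N * numBlocks N := Nat.mul_le_mul_left _ hj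
  have h3 : msgLen N ≤ N := Nat.div_le_self _ _
  have h4 : 2 * width N * (j + 1) = 2 * width N * j + 2 * width N := by ring
  omega

/-- The assignment with message `z`, the blocks `g w, …, g w + w - 1` given by `Y`, and all other
blocks zero. -/
def asg (N g w : ℕ) (z : Fin (msgLen N) → Bool)
    (Y : Fin w → Fin (modulus N) × (Fin (width N) → Bool)) (i : Fin N) : Bool :=
  if h : (i : ℕ) < msgLen N then z ⟨i, h⟩
  else if hj : g * w ≤ ((i : ℕ) - msgLen N) / (2 * width N) ∧
      ((i : ℕ) - msgLen N) / (2 * width N) < g * w + w then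
    if ((i : ℕ) - msgLen N) % (2 * width N) < width N then
      ((Y ⟨((i : ℕ) - msgLen N) / (2 * width N) - g * w, by omega⟩).1 : ℕ).testBit
        (((i : ℕ) - msgLen N) % (2 * width N))
    else if ho : ((i : ℕ) - msgLen N) % (2 * width N) - width N < width N then
      (Y ⟨((i : ℕ) - msgLen N) / (2 * width N) - g * w, by omega⟩).2
        ⟨((i : ℕ) - msgLen N) % (2 * width N) - width N, ho⟩
    else false
  else false

/-- The variables of the blocks `g w, …, g w + w - 1`. -/
def grp (N w g : ℕ) : Finset (Fin N) :=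
  univ.filter fun i => ¬ (i : ℕ) < msgLen N ∧ (g * w ≤ ((i : ℕ) - msgLen N) / (2 * width N) ∧
      ((i : ℕ) - msgLen N) / (2 * width N) < g * w + w)

lemma asg_mem (N g w : ℕ) (z z' : Fin (msgLen N) → Bool)
    (Y : Fin w → Fin (modulus N) × (Fin (width N) → Bool)) (i : Fin N) (hi : i ∈ grp N w g) :
    asg N g w z Y i = asg N g w z' Y i := by
  simp only [grp, mem_filter, mem_univ, true_and] at hi
  unfold asg
  rw [dif_neg hi.1, dif_neg hi.1]

lemma asg_not_mem (N g w : ℕ) (z : Fin (msgLen N) → Bool)
    (Y Y' : Fin w → Fin (modulus N) × (Fin (width N) → Bool)) (i : Fin N) (hi : i ∉ grp N w g) :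
    asg N g w z Y i = asg N g w z Y' i := by
  simp only [grp, mem_filter, mem_univ, true_and] at hi
  unfold asg
  by_cases h : (i : ℕ) < msgLen N
  · rw [dif_pos h, dif_pos h]
  · rw [dif_neg h, dif_neg h]
    rw [dif_neg (fun h' => hi ⟨h, h'⟩), dif_neg (fun h' => hi ⟨h, h'⟩)]

lemma grp_disjoint (N w g g' : ℕ) (h : g ≠ g') : Disjoint (grp N w g) (grp N w g') := by
  rw [disjoint_left]
  intro i hi hi'
  simp only [grp, mem_filter, mem_univ, true_and] at hi hi'
  rcases Nat.lt_or_gt_of_ne h with h | h
  · have : (g + 1) * w ≤ g' * w := Nat.mul_le_mul_right _ h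
    have h2 : (g + 1) * w = g * w + w := by ring
    omega
  · have : (g' + 1) * w ≤ g * w := Nat.mul_le_mul_right _ h
    have h2 : (g' + 1) * w = g' * w + w := by ring
    omega

lemma div_mod_pos {N j o : ℕ} (ho : o < 2 * width N) :
    (msgLen N + 2 * width N * j + o - msgLen N) / (2 * width N) = j ∧
    (msgLen N + 2 * width N * j + o - msgLen N) % (2 * width N) = o := by
  have hw := width_pos N
  have h1 : msgLen N + 2 * width N * j + o - msgLen N = o + 2 * width N * j := by omega
  rw [h1]
  constructor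
  · rw [Nat.add_mul_div_left _ _ (by omega), Nat.div_eq_of_lt ho, zero_add]
  · rw [Nat.add_mul_mod_self_left, Nat.mod_eq_of_lt ho]

section

variable {N g w : ℕ} (z : Fin (msgLen N) → Bool)
  (Y : Fin w → Fin (modulus N) × (Fin (width N) → Bool))

lemma bit_msg (i : ℕ) (hi : i < msgLen N) : bitAt (asg N g w z Y) i = z ⟨i, hi⟩ := by
  have hN : msgLen N ≤ N := Nat.div_le_self _ _
  unfold bitAt
  rw [dif_pos (by omega)]
  unfold asg
  rw [dif_pos (by simpa using hi)]

lemma bit_out (j o : ℕ) (hj : j < numBlocks N) (ho : o < 2 * width N)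
    (hg : ¬ (g * w ≤ j ∧ j < g * w + w)) :
    bitAt (asg N g w z Y) (msgLen N + 2 * width N * j + o) = false := by
  unfold bitAt
  rw [dif_pos (pos_lt hj ho)]
  unfold asg
  obtain ⟨h1, h2⟩ := div_mod_pos (j := j) ho
  rw [dif_neg (by simp only; omega), dif_neg (by simpa only [h1] using hg)]

lemma bit_point (b : Fin w) (hg : g * w + w ≤ numBlocks N) (o : ℕ) (ho : o < width N) :
    bitAt (asg N g w z Y) (msgLen N + 2 * width N * (g * w + b) + o) =
      ((Y b).1 : ℕ).testBit o := by
  have hb := b.isLt
  obtain ⟨h1, h2⟩ := div_mod_pos (N := N) (j := g * w + b) (o := o) (by omega)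
  unfold bitAt
  rw [dif_pos (pos_lt (by omega) (by omega))]
  unfold asg
  rw [dif_neg (by simp only; omega)]
  simp only [h1, h2]
  rw [dif_pos ⟨by omega, by omega⟩, if_pos ho]
  congr 4
  apply Fin.ext
  simp

lemma bit_val (b : Fin w) (hg : g * w + w ≤ numBlocks N) (a : Fin (width N)) :
    bitAt (asg N g w z Y) (msgLen N + 2 * width N * (g * w + b) + width N + a) = (Y b).2 a := by
  have hb := b.isLt
  have ha := a.isLt
  obtain ⟨h1, h2⟩ := div_mod_pos (N := N) (j := g * w + b) (o := width N + a) (by omega)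
  have hpos : msgLen N + 2 * width N * (g * w + b) + width N + a =
      msgLen N + 2 * width N * (g * w + b) + (width N + a) := by ring
  rw [hpos]
  unfold bitAt
  rw [dif_pos (pos_lt (by omega) (by omega))]
  unfold asg
  rw [dif_neg (by simp only; omega)]
  simp only [h1, h2]
  rw [dif_pos ⟨by omega, by omega⟩, if_neg (by omega), dif_pos (by omega)]
  have e1 : (⟨g * w + (b : ℕ) - g * w, by omega⟩ : Fin w) = b := by
    apply Fin.ext; simp
  have e2 : (⟨width N + (a : ℕ) - width N, by omega⟩ : Fin (width N)) = a := by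
    apply Fin.ext; simp
  rw [e1, e2]

lemma sum_testBit (L u : ℕ) : ∑ a ∈ range L, (if u.testBit a then 2 ^ a else 0) = u % 2 ^ L := by
  induction L with
  | zero => simp [Nat.mod_one]
  | succ L ih =>
    rw [sum_range_succ, ih, Nat.mod_pow_succ, ← Nat.toNat_testBit]
    cases u.testBit L <;> simp

lemma point_asg (b : Fin w) (hg : g * w + w ≤ numBlocks N) :
    point (asg N g w z Y) (g * w + b) = (Y b).1 := by
  unfold point
  rw [sum_congr rfl (g := fun a => if ((Y b).1 : ℕ).testBit a then 2 ^ a else 0)]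
  · rw [sum_testBit, Nat.mod_eq_of_lt]
    exact (Y b).1.isLt.trans (modulus_lt_two_pow N)
  · intro a ha
    rw [bit_point z Y b hg a (mem_range.1 ha)]

lemma polyValue_asg (b : Fin w) (hg : g * w + w ≤ numBlocks N) :
    polyValue (asg N g w z Y) (g * w + b) = pv (modulus N) (msgLen N) z (Y b).1 := by
  unfold polyValue pv
  rw [point_asg z Y b hg, Finset.sum_range]
  congr 1
  apply sum_congr rfl
  intro i _
  rw [bit_msg z Y i i.isLt]

lemma sgn_odd (m : ℕ) : sgn (decide (Odd m)) = (-1) ^ m := by
  by_cases h : Odd m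
  · simp [sgn, h, h.neg_one_pow]
  · rw [Nat.not_odd_iff_even] at h
    have : ¬ Odd m := Nat.not_odd_iff_even.2 h
    simp [sgn, this, h.neg_one_pow]

lemma sgn_hardFun (hg : g * w + w ≤ numBlocks N) :
    sgn (hardFun N (asg N g w z Y)) =
      ∏ b, csgn (modulus N) (msgLen N) (width N) z (Y b) := by
  unfold hardFun
  rw [sgn_odd]
  have hsplit : ∑ j ∈ range (numBlocks N), ∑ a ∈ range (width N),
      (if bitAt (asg N g w z Y) (msgLen N + 2 * width N * j + width N + a) &&
        (polyValue (asg N g w z Y) j).testBit a then 1 else 0) =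
      ∑ b : Fin w, ∑ a : Fin (width N),
        (if (Y b).2 a && (pv (modulus N) (msgLen N) z (Y b).1).testBit a then 1 else 0) := by
    have hsub : Ico (g * w) (g * w + w) ⊆ range (numBlocks N) := by
      intro j hj
      rw [mem_Ico] at hj
      rw [mem_range]; omega
    rw [← sum_subset hsub]
    · rw [sum_Ico_eq_sum_range, Nat.add_sub_cancel_left, Finset.sum_range]
      apply sum_congr rfl
      intro b _
      rw [Finset.sum_range]
      apply sum_congr rfl
      intro a _
      rw [bit_val z Y b hg a, polyValue_asg z Y b hg]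
    · intro j hj hj'
      rw [mem_Ico] at hj'
      apply sum_eq_zero
      intro a ha
      have ha' := mem_range.1 ha
      have : msgLen N + 2 * width N * j + width N + a =
        msgLen N + 2 * width N * j + (width N + a) := by ring
      rw [this, bit_out z Y j (width N + a) (mem_range.1 hj) (by omega) hj']
      simp
  rw [hsplit, ← prod_pow_eq_pow_sum]
  apply prod_congr rfl
  intro b _
  rw [← prod_pow_eq_pow_sum]
  unfold csgn
  apply prod_congr rfl
  intro a _
  split_ifs <;> simp

end

lemma hardFun_zero {N g w : ℕ} (Y : Fin w → Fin (modulus N) × (Fin (width N) → Bool))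
    (hg : g * w + w ≤ numBlocks N) :
    hardFun N (asg N g w (fun _ => false) Y) = false := by
  have h := sgn_hardFun (g := g) (fun _ => false) Y hg
  have h1 : ∀ b, csgn (modulus N) (msgLen N) (width N) (fun _ => false) (Y b) = 1 := by
    intro b
    unfold csgn pv
    simp
  simp only [h1, prod_const_one] at h
  cases hh : hardFun N (asg N g w (fun _ => false) Y) with
  | false => rfl
  | true => rw [hh] at h; simp [sgn] at h

/-- The variables of a group, as variables of a circuit with guess bits. -/
def grpV (N q w g : ℕ) : Finset (Fin N ⊕ Fin q) := (grp N w g).map ⟨Sum.inl, Sum.inl_injective⟩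

lemma grpV_disjoint (N q w g g' : ℕ) (h : g ≠ g') : Disjoint (grpV N q w g) (grpV N q w g') := by
  unfold grpV
  rw [disjoint_map]
  exact grp_disjoint N w g g' h

/-- The bound for one group of blocks. -/
theorem group_bound {N q : ℕ} (C : Circuit N q) (hC : C.Computes (hardFun N)) (K g w : ℕ)
    (hg : g * w + w ≤ numBlocks N)
    (hw : 2 ^ (q + (cutSet C K).card + 4) ≤ msgLen N ^ w) :
    msgLen N ≤ 4 * blockWt C K (grpV N q w g) + 2 * (cutSet C K).card + q + 4 := by
  classical
  have : Fact (modulus N).Prime := ⟨modulus_prime N⟩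
  have : Nonempty (Fin (modulus N)) := ⟨⟨0, (modulus_prime N).pos⟩⟩
  obtain ⟨ℓ, hℓ⟩ := exists_weights C K (grpV N q w g) (cutSet C K)
  obtain ⟨H, hHcard, hH⟩ := exists_family C K (grpV N q w g) (asg N g w)
    (fun Y => Sum.elim (asg N g w (fun _ => false) Y) (fun _ => false))
    (by
      intro z wt Y i hi
      obtain ⟨i', hi', rfl⟩ := mem_map.1 hi
      exact asg_mem N g w z (fun _ => false) Y i' hi')
    (by
      intro z wt Y Y' i hi
      rcases i with i | i
      · refine asg_not_mem N g w z Y Y' i (fun h => hi ?_)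
        exact mem_map.2 ⟨i, h, rfl⟩
      · rfl) ℓ hℓ (hardFun N) hC
  have hsum := weights_sum C K (grpV N q w g) ℓ hℓ
  have hcode := code_bound (q + (cutSet C K).card)
    (fun z Y => hardFun N (asg N g w z Y)) (fun _ => false)
    (fun Y => hardFun_zero Y hg)
    (by
      intro z z' hzz
      have := csgn_corr (modulus N) (msgLen N) (width N) w (q + (cutSet C K).card)
        (modulus_lt_two_pow N).le (modulus_gt N).le hw z z' hzz
      refine le_trans (le_of_eq ?_) this
      congr 1
      apply sum_congr rfl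
      intro Y _
      rw [sgn_hardFun z Y hg, sgn_hardFun z' Y hg])
    H hH
  rw [Fintype.card_fun, Fintype.card_bool, Fintype.card_fin] at hcode
  rw [wtOf_out] at hHcard
  have hE : ∑ j ∈ cutSet C K, ℓ j + lwtSrc C K (grpV N q w g) (Sum.inr C.out) ≤
      blockWt C K (grpV N q w g) := by
    unfold blockWt
    omega
  have h1 : 2 ^ msgLen N ≤
      2 ^ (4 * blockWt C K (grpV N q w g) + 2 * (cutSet C K).card + q + 4) + 1 := by
    refine hcode.trans (Nat.add_le_add_right ?_ 1)
    calc H.card * 2 ^ (q + (cutSet C K).card + 3)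
        ≤ (2 ^ ((cutSet C K).card + 1) * 16 ^ (blockWt C K (grpV N q w g))) *
          2 ^ (q + (cutSet C K).card + 3) := by
          apply Nat.mul_le_mul_right
          refine hHcard.trans (Nat.mul_le_mul_left _ ?_)
          exact Nat.pow_le_pow_right (by norm_num) hE
      _ = 2 ^ (4 * blockWt C K (grpV N q w g) + 2 * (cutSet C K).card + q + 4) := by
          have : (16 : ℕ) = 2 ^ 4 := by norm_num
          rw [this, ← pow_mul, ← pow_add, ← pow_add]
          congr 1
          ring
  by_contra hcon
  push Not at hcon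
  have h2 : 2 ^ (4 * blockWt C K (grpV N q w g) + 2 * (cutSet C K).card + q + 4 + 1) ≤
      2 ^ msgLen N := Nat.pow_le_pow_right (by norm_num) hcon
  rw [pow_succ] at h2
  have h3 : 2 ≤ 2 ^ (4 * blockWt C K (grpV N q w g) + 2 * (cutSet C K).card + q + 4) := by
    calc 2 = 2 ^ 1 := by norm_num
      _ ≤ _ := Nat.pow_le_pow_right (by norm_num) (by omega)
  omega

/-- Summing over all groups. -/
theorem all_groups {N q : ℕ} (C : Circuit N q) (hC : C.Computes (hardFun N)) {K : ℕ} (hK : 1 ≤ K)
    (w : ℕ) (hw : 2 ^ (q + (cutSet C K).card + 4) ≤ msgLen N ^ w) :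
    (numBlocks N / w) * msgLen N ≤ 4 * ((2 * C.numGlobal K + 1) * K ^ 2) +
      (numBlocks N / w) * (2 * (cutSet C K).card + q + 4) := by
  have h1 : ∑ g ∈ range (numBlocks N / w), msgLen N ≤
      ∑ g ∈ range (numBlocks N / w),
        (4 * blockWt C K (grpV N q w g) + (2 * (cutSet C K).card + q + 4)) := by
    apply sum_le_sum
    intro g hg
    have hg' := mem_range.1 hg
    have h2 : (g + 1) * w ≤ numBlocks N := by
      calc (g + 1) * w ≤ (numBlocks N / w) * w := Nat.mul_le_mul_right _ hg'
        _ ≤ numBlocks N := Nat.div_mul_le_self _ _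
    have h3 : (g + 1) * w = g * w + w := by ring
    have := group_bound C hC K g w (by omega) hw
    omega
  rw [sum_const, card_range, smul_eq_mul, sum_add_distrib, ← mul_sum, sum_const, card_range,
    smul_eq_mul] at h1
  have h4 := sum_blockWt_le C hK (range (numBlocks N / w)) (grpV N q w)
    (fun g _ g' _ hne => grpV_disjoint N q w g g' hne)
  omega

end Pool.Agent.H559R2.Sharing
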