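import Mathlib
import Pool.Agent.H559R2.SharingAsg

open Finset

namespace Pool.Agent.H559R2.Sharing

/-- Local sources: variables, and gates above at most `K` variables. -/
def IsLocal {n q : ℕ} (C : Circuit n q) (K : ℕ) : Src n q C.size → Prop
  | Sum.inl _ => True
  | Sum.inr j => (C.supp j).card ≤ K

open Classical in
/-- The variables below local sources that feed global gates, or below the output if it is
local. -/
noncomputable def usedVars {n q : ℕ} (C : Circuit n q) (K : ℕ) : Finset (Fin n ⊕ Fin q) :=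
  ((univ.filter fun j => K < (C.supp j).card).biUnion fun j =>
    ((C.gate j).wires.toFinset.filter fun a => IsLocal C K a).biUnion fun a => C.ssupp a) ∪
  (if (C.supp C.out).card ≤ K then C.supp C.out else ∅)

lemma card_usedVars_le {n q : ℕ} (C : Circuit n q) {K : ℕ} (hK : 1 ≤ K) :
    (usedVars C K).card ≤ K * (2 * C.numGlobal K + 1) := by
  classical
  unfold usedVars
  refine (card_union_le _ _).trans ?_
  have h1 : ((univ.filter fun j => K < (C.supp j).card).biUnion fun j =>
      ((C.gate j).wires.toFinset.filter fun a => IsLocal C K a).biUnion fun a =>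
        C.ssupp a).card ≤ C.numGlobal K * (2 * K) := by
    refine card_biUnion_le.trans ?_
    calc _ ≤ ∑ _j ∈ univ.filter (fun j => K < (C.supp j).card), 2 * K := by
          apply sum_le_sum
          intro j _
          refine card_biUnion_le.trans ?_
          calc _ ≤ ∑ _a ∈ (C.gate j).wires.toFinset.filter (fun a => IsLocal C K a), K := by
                apply sum_le_sum
                intro a ha
                have hloc := (mem_filter.1 ha).2
                rcases a with a | a
                · simpa [Circuit.ssupp] using hK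
                · exact hloc
            _ ≤ 2 * K := by
                rw [sum_const, smul_eq_mul]
                apply Nat.mul_le_mul_right
                refine (card_filter_le _ _).trans ((List.toFinset_card_le _).trans ?_)
                cases C.gate j <;> simp [Gate.wires]
      _ = _ := by simp [Circuit.numGlobal]
  have h2 : (if (C.supp C.out).card ≤ K then C.supp C.out else ∅).card ≤ K := by
    split_ifs with h
    · exact h
    · simp
  calc _ ≤ C.numGlobal K * (2 * K) + K := Nat.add_le_add h1 h2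
    _ = _ := by ring

/-- Changing a variable outside `usedVars` does not change the value of the output. -/
lemma val_out_congr {n q : ℕ} (C : Circuit n q) (K : ℕ) (ξ ξ' : Fin n ⊕ Fin q → Bool)
    (h : ∀ i ∈ usedVars C K, ξ i = ξ' i) : C.val ξ C.out = C.val ξ' C.out := by
  classical
  have hglob : ∀ (m : ℕ) (j : Fin C.size), j.val < m → K < (C.supp j).card →
      C.val ξ j = C.val ξ' j := by
    intro m
    induction m with
    | zero => intro j hj; exact absurd hj (Nat.not_lt_zero _)
    | succ m ih =>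
      intro j hj hK
      rw [C.val_spec ξ j, C.val_spec ξ' j]
      apply Gate.eval_congr
      intro b hb
      by_cases hloc : IsLocal C K b
      · apply sval_congr C b
        intro i hi
        apply h
        unfold usedVars
        apply mem_union_left
        rw [mem_biUnion]
        refine ⟨j, by simpa using hK, ?_⟩
        rw [mem_biUnion]
        exact ⟨b, by simpa using ⟨hb, hloc⟩, hi⟩
      · rcases b with b | b
        · exact absurd trivial hloc
        · have hlt : b.val < j.val := C.acyclic j b hb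
          have : ¬ (C.supp b).card ≤ K := hloc
          exact ih b (by omega) (by omega)
  by_cases hout : (C.supp C.out).card ≤ K
  · apply val_congr C ξ ξ' (C.out.val + 1) C.out (Nat.lt_succ_self _)
    intro i hi
    apply h
    unfold usedVars
    apply mem_union_right
    rw [if_pos hout]
    exact hi
  · exact hglob (C.out.val + 1) C.out (Nat.lt_succ_self _) (by omega)

lemma msg_used {N q : ℕ} (C : Circuit N q) (hC : C.Computes (hardFun N)) (K : ℕ)
    (hr : 0 < numBlocks N) (i : ℕ) (hi : i < msgLen N) :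
    (Sum.inl (⟨i, hi.trans_le (Nat.div_le_self _ _)⟩ : Fin N) : Fin N ⊕ Fin q) ∈
      usedVars C K := by
  classical
  by_contra hcon
  have hp := modulus_prime N
  have h1p : 1 < modulus N := hp.one_lt
  let Y : Fin 1 → Fin (modulus N) × (Fin (width N) → Bool) :=
    fun _ => (⟨1, h1p⟩, fun a => decide ((a : ℕ) = 0))
  have hg : 0 * 1 + 1 ≤ numBlocks N := by omega
  have h1 := sgn_hardFun (g := 0) (fun i' : Fin (msgLen N) => decide ((i' : ℕ) = i)) Y hg
  have hpv : pv (modulus N) (msgLen N) (fun i' : Fin (msgLen N) => decide ((i' : ℕ) = i)) 1 = 1 := by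
    unfold pv
    have : (∑ i' : Fin (msgLen N), if decide ((i' : ℕ) = i) = true then 1 ^ (i' : ℕ) else 0) = 1 := by
      rw [sum_eq_single (⟨i, hi⟩ : Fin (msgLen N))]
      · simp
      · intro b _ hb
        rw [if_neg]
        intro hh
        apply hb
        apply Fin.ext
        simpa using hh
      · intro hh; exact absurd (mem_univ _) hh
    rw [this, Nat.mod_eq_of_lt h1p]
  have hval : sgn (hardFun N (asg N 0 1 (fun i' : Fin (msgLen N) => decide ((i' : ℕ) = i)) Y)) =
      -1 := by
    rw [h1, Fin.prod_univ_one]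
    unfold csgn
    simp only [Y, hpv]
    rw [prod_eq_single (⟨0, width_pos N⟩ : Fin (width N))]
    · simp
    · intro a _ ha
      have : (a : ℕ) ≠ 0 := fun hh => ha (Fin.ext hh)
      simp [this]
    · intro hh; exact absurd (mem_univ _) hh
  have htrue : hardFun N (asg N 0 1 (fun i' : Fin (msgLen N) => decide ((i' : ℕ) = i)) Y) = true := by
    cases hh : hardFun N (asg N 0 1 (fun i' : Fin (msgLen N) => decide ((i' : ℕ) = i)) Y) with
    | true => rfl
    | false => rw [hh] at hval; simp [sgn] at hval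
  have hfalse := hardFun_zero (g := 0) Y hg
  obtain ⟨w, v, hrun, hout⟩ := (hC _).1 htrue
  have hv : v = C.val _ := C.run_unique _ hrun (C.val_spec _)
  have hsame := val_out_congr C K
    (Sum.elim (asg N 0 1 (fun i' : Fin (msgLen N) => decide ((i' : ℕ) = i)) Y) w)
    (Sum.elim (asg N 0 1 (fun _ => false) Y) w) (by
      intro i' hi'
      rcases i' with i' | i'
      · have hne : i' ≠ ⟨i, hi.trans_le (Nat.div_le_self _ _)⟩ := by
          rintro rfl
          exact hcon hi'
        simp only [Sum.elim_inl]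
        unfold asg
        by_cases h : (i' : ℕ) < msgLen N
        · rw [dif_pos h, dif_pos h]
          have : (i' : ℕ) ≠ i := fun hh => hne (Fin.ext hh)
          simp [this]
        · rw [dif_neg h, dif_neg h]
      · rfl)
  have htrue' : hardFun N (asg N 0 1 (fun _ => false) Y) = true := by
    rw [hC]
    refine ⟨w, C.val _, C.val_spec _, ?_⟩
    rw [← hsame, ← hv]
    exact hout
  rw [hfalse] at htrue'
  exact absurd htrue' (by simp)

lemma msgLen_le {N q : ℕ} (C : Circuit N q) (hC : C.Computes (hardFun N)) {K : ℕ} (hK : 1 ≤ K)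
    (hr : 0 < numBlocks N) : msgLen N ≤ K * (2 * C.numGlobal K + 1) := by
  classical
  refine le_trans ?_ (card_usedVars_le C hK)
  have hsub : (univ.image fun i : Fin (msgLen N) =>
      (Sum.inl (⟨i, i.isLt.trans_le (Nat.div_le_self _ _)⟩ : Fin N) : Fin N ⊕ Fin q)) ⊆
      usedVars C K := by
    intro b hb
    obtain ⟨i, _, rfl⟩ := mem_image.1 hb
    exact msg_used C hC K hr i i.isLt
  have h1 := card_le_card hsub
  rw [card_image_of_injective, card_univ, Fintype.card_fin] at h1
  · exact h1
  · intro a b hab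
    simp only [Sum.inl.injEq, Fin.mk.injEq] at hab
    exact Fin.ext hab

lemma aux_pow (κ : ℕ) (h : 6 ≤ κ) : 20 * κ ≤ 2 ^ (κ + 1) := by
  induction κ, h using Nat.le_induction with
  | base => norm_num
  | succ κ h ih => rw [pow_succ]; omega

/-- The main inequality. -/
theorem sharing_tradeoff {N q K : ℕ} (hN : 2 ≤ N) (hK : 1 ≤ K) (C : Circuit N q)
    (hC : C.Computes (hardFun N)) :
    N ^ 2 ≤ 2 ^ 12 * (K ^ 2 * (C.numGlobal K + 1) * (C.numShared K + q + Nat.log 2 N)) := by
  have hlog1 : 1 ≤ Nat.log 2 N := Nat.log_pos (by norm_num) hN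
  have hK2 : 1 ≤ K ^ 2 := Nat.one_le_pow _ _ hK
  have hprod : 1 ≤ K ^ 2 * (C.numGlobal K + 1) := Nat.mul_pos (by omega) (by omega)
  by_cases hN1 : N < 64
  · have h1 : N ^ 2 ≤ 64 * 64 := by nlinarith
    have h2 : 1 ≤ K ^ 2 * (C.numGlobal K + 1) * (C.numShared K + q + Nat.log 2 N) :=
      Nat.mul_pos (by omega) (by omega)
    calc N ^ 2 ≤ 2 ^ 12 * 1 := by norm_num; omega
      _ ≤ _ := Nat.mul_le_mul_left _ h2
  by_cases hN2 : N < 128
  · have hlog7 : 6 ≤ Nat.log 2 N := by
      rw [show (6 : ℕ) = Nat.log 2 64 by norm_num [Nat.log]]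
      exact Nat.log_mono_right (by omega)
    have h1 : N ^ 2 ≤ 128 * 128 := by nlinarith
    have h2 : 6 ≤ K ^ 2 * (C.numGlobal K + 1) * (C.numShared K + q + Nat.log 2 N) := by
      calc 6 = 1 * 6 := by norm_num
        _ ≤ _ := Nat.mul_le_mul hprod (by omega)
    calc N ^ 2 ≤ 2 ^ 12 * 6 := by norm_num; omega
      _ ≤ _ := Nat.mul_le_mul_left _ h2
  push Not at hN1 hN2
  -- parameters
  set k := msgLen N with hk
  have hkdef : k = N / 2 := rfl
  have hk1 : N ≤ 2 * k + 1 := by omega
  have hk2 : 2 * k ≤ N := by omega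
  have hk64 : 64 ≤ k := by omega
  set κ := Nat.log 2 k with hκ
  have hκ1 : 2 ^ κ ≤ k := Nat.pow_log_le_self 2 (by omega)
  have hκ2 : k < 2 ^ (κ + 1) := Nat.lt_pow_succ_log_self (by norm_num) k
  have hκ6 : 6 ≤ κ := by
    rw [hκ, show (6 : ℕ) = Nat.log 2 64 by norm_num [Nat.log]]
    exact Nat.log_mono_right hk64
  have hκlog : κ + 1 ≤ Nat.log 2 N := by
    apply Nat.le_log_of_pow_le (by norm_num)
    rw [pow_succ]; omega
  have h20 : 20 * κ ≤ N := by
    have := aux_pow κ hκ6
    rw [pow_succ] at this
    omega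
  have hL : width N ≤ 2 * κ + 3 := by
    rw [width, Nat.size_le]
    have h1 := modulus_le N (by rw [← hk]; omega)
    rw [← hk] at h1
    calc modulus N ≤ 2 * k ^ 2 := h1
      _ < 2 * (2 ^ (κ + 1)) ^ 2 := by
        have := Nat.pow_lt_pow_left hκ2 (n := 2) (by norm_num)
        omega
      _ = 2 ^ (2 * κ + 3) := by rw [← pow_mul, ← pow_succ']; congr 1; ring
  set r := numBlocks N with hr
  have hLpos := width_pos N
  have hr1 : N - k < (r + 1) * (2 * width N) := by
    rw [hr, numBlocks, ← hk]
    have := Nat.lt_mul_div_succ (N - k) (b := 2 * width N) (by omega)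
    rw [mul_comm]
    exact this
  have hr2 : N ≤ 10 * (κ * (r + 1)) := by
    have h1 : (r + 1) * (2 * width N) ≤ (r + 1) * (5 * κ) :=
      Nat.mul_le_mul_left _ (by omega)
    have h2 : (r + 1) * (5 * κ) = 5 * (κ * (r + 1)) := by ring
    omega
  have hr3 : N ≤ 20 * (κ * r) := by
    have : κ * (r + 1) = κ * r + κ := by ring
    omega
  have hrpos : 0 < r := by
    rcases Nat.eq_zero_or_pos r with h | h
    · rw [h, mul_zero] at hr3; omega
    · exact h
  have hsk : k ≤ K * (2 * C.numGlobal K + 1) := msgLen_le C hC hK hrpos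
  have hcut := card_cutSet_le C K
  set t := C.numShared K with ht
  set c := (cutSet C K).card with hc
  set S := C.numGlobal K + 1 with hS
  have hS1 : C.numGlobal K = S - 1 := by omega
  have hSpos : 1 ≤ S := by omega
  set M := t + q + Nat.log 2 N with hM
  have hN4 : N ≤ 4 * (K * S) := by
    have h1 : K * (2 * C.numGlobal K + 1) + K = 2 * (K * S) := by rw [hS]; ring
    omega
  have hMpos : 7 ≤ M := by omega
  -- it suffices to bound by something without the factor `K ^ 2`
  have easy : ∀ a : ℕ, a ≤ 2 ^ 12 → N ^ 2 ≤ a * ((K * S) * M) →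
      N ^ 2 ≤ 2 ^ 12 * (K ^ 2 * S * M) := by
    intro a ha h
    calc N ^ 2 ≤ a * ((K * S) * M) := h
      _ ≤ 2 ^ 12 * ((K * S) * M) := Nat.mul_le_mul_right _ ha
      _ ≤ 2 ^ 12 * ((K * (K * S)) * M) := by
        apply Nat.mul_le_mul_left
        apply Nat.mul_le_mul_right
        exact Nat.le_mul_of_pos_left _ hK
      _ = _ := by ring
  by_cases hA : k < 2 * (2 * c + q + 4)
  · -- many shared gates
    have h1 : N ≤ 9 * M := by omega
    apply easy 36 (by norm_num)
    calc N ^ 2 = N * N := by ring
      _ ≤ (4 * (K * S)) * (9 * M) := Nat.mul_le_mul hN4 h1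
      _ = _ := by ring
  push Not at hA
  set w := (q + c + 4) / κ + 1 with hw
  have hwpos : 0 < w := Nat.succ_pos _
  have hw1 : q + c + 4 ≤ κ * w := (Nat.lt_mul_div_succ (q + c + 4) (b := κ) (by omega)).le
  have hw2 : κ * w ≤ 2 * M := by
    have : κ * ((q + c + 4) / κ) ≤ q + c + 4 := Nat.mul_div_le _ _
    rw [hw, mul_add, mul_one]
    omega
  have hwpow : 2 ^ (q + c + 4) ≤ k ^ w := by
    calc 2 ^ (q + c + 4) ≤ 2 ^ (κ * w) := Nat.pow_le_pow_right (by norm_num) hw1
      _ = (2 ^ κ) ^ w := pow_mul _ _ _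
      _ ≤ k ^ w := Nat.pow_le_pow_left hκ1 w
  have hall := all_groups C hC hK w hwpow
  rw [← hk, ← hr, ← hc] at hall
  by_cases hB : r < 2 * w
  · have h1 : κ * r ≤ κ * (2 * w) := Nat.mul_le_mul_left _ hB.le
    have h1' : κ * (2 * w) = 2 * (κ * w) := by ring
    have h2 : N ≤ 80 * M := by omega
    apply easy 320 (by norm_num)
    calc N ^ 2 = N * N := by ring
      _ ≤ (4 * (K * S)) * (80 * M) := Nat.mul_le_mul hN4 h2
      _ = _ := by ring
  push Not at hB
  have hrw : r ≤ 2 * (w * (r / w)) := by
    have h1 : r < w * (r / w + 1) := Nat.lt_mul_div_succ r hwpos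
    have h2 : w * (r / w + 1) = w * (r / w) + w := by ring
    omega
  have hmain : (r / w) * k ≤ 16 * (K ^ 2 * S) := by
    have h1 : (r / w) * (2 * (2 * c + q + 4)) ≤ (r / w) * k := Nat.mul_le_mul_left _ hA
    have h2 : (r / w) * (2 * (2 * c + q + 4)) = 2 * ((r / w) * (2 * c + q + 4)) := by ring
    have h3 : 4 * ((2 * C.numGlobal K + 1) * K ^ 2) ≤ 8 * (K ^ 2 * S) := by
      have : 2 * C.numGlobal K + 1 ≤ 2 * S := by omega
      calc 4 * ((2 * C.numGlobal K + 1) * K ^ 2) ≤ 4 * ((2 * S) * K ^ 2) := by gcongr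
        _ = _ := by ring
    omega
  have hfin : N * k ≤ 1280 * (K ^ 2 * S * M) := by
    calc N * k ≤ (20 * (κ * r)) * k := Nat.mul_le_mul_right _ hr3
      _ ≤ (20 * (κ * (2 * (w * (r / w))))) * k := by gcongr
      _ = 40 * ((κ * w) * ((r / w) * k)) := by ring
      _ ≤ 40 * ((2 * M) * (16 * (K ^ 2 * S))) := by gcongr
      _ = _ := by ring
  calc N ^ 2 = N * N := by ring
    _ ≤ N * (3 * k) := Nat.mul_le_mul_left _ (by omega)
    _ = 3 * (N * k) := by ring
    _ ≤ 3 * (1280 * (K ^ 2 * S * M)) := Nat.mul_le_mul_left _ hfin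
    _ = 3840 * (K ^ 2 * S * M) := by ring
    _ ≤ 2 ^ 12 * (K ^ 2 * S * M) := Nat.mul_le_mul_right _ (by norm_num)

end Pool.Agent.H559R2.Sharing
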