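import Mathlib
import Pool.Agent.NPC.Hard
import Pool.Agent.H559R2.SharingFinal

/-! The explicit function is computable in polynomial time. -/

namespace Pool.Agent.NPC.H559Sharing

open Pool.Agent.H559R2.Sharing

section

variable {α : Type} [TEnc α]

/-! ### parameters -/

lemma u_msgLen {l : α → List Bool} (hl : Poly l) : UPoly (fun a => msgLen (l a).length) :=
  UPoly.of_le (m := fun a => msgLen (l a).length) (Poly.div (Poly.length hl) (Poly.const 2))
    (UPoly.length hl) (fun a => Nat.div_le_self _ _)

/-- The length of the search range for the modulus. -/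
def searchLen (N : ℕ) : ℕ := 2 * (msgLen N * msgLen N) + 3

lemma u_searchLen {l : α → List Bool} (hl : Poly l) : UPoly (fun a => searchLen (l a).length) :=
  UPoly.add (UPoly.mul (UPoly.const 2) (UPoly.mul (u_msgLen hl) (u_msgLen hl))) (UPoly.const 3)

/-- Primality test by trial division below a bound. -/
def isPrimeB (B m : ℕ) : Bool :=
  decide (2 ≤ m) && (List.range B).all (fun d => decide (d < 2) || (decide (m ≤ d) ||
    !decide (m % d = 0)))

lemma isPrimeB_iff {B m : ℕ} (h : m < B) : isPrimeB B m = true ↔ m.Prime := by
  unfold isPrimeB
  rw [Nat.prime_def_lt']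
  simp only [Bool.and_eq_true, decide_eq_true_eq, List.all_eq_true, List.mem_range, Bool.or_eq_true,
    Bool.not_eq_true', decide_eq_false_iff_not]
  constructor
  · rintro ⟨h1, h2⟩
    refine ⟨h1, fun d hd2 hdm hdvd => ?_⟩
    rcases h2 d (by omega) with h3 | h3 | h3
    · omega
    · omega
    · exact h3 (Nat.mod_eq_zero_of_dvd hdvd)
  · rintro ⟨h1, h2⟩
    refine ⟨h1, fun d _ => ?_⟩
    by_cases h3 : d < 2
    · left; exact h3
    · by_cases h4 : m ≤ d
      · right; left; exact h4
      · right; right
        intro h5
        exact h2 d (by omega) (by omega) (Nat.dvd_of_mod_eq_zero h5)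

lemma modulus_lt_searchLen (N : ℕ) : modulus N < searchLen N := by
  unfold searchLen
  by_cases h : msgLen N = 0
  · have h2 : modulus N ≤ 2 := by
      apply Nat.find_min'
      rw [h]
      exact ⟨by norm_num, Nat.prime_two⟩
    omega
  · have := modulus_le N h
    have h2 : msgLen N ^ 2 = msgLen N * msgLen N := sq _
    omega

lemma modulus_eq (N : ℕ) : modulus N = ((List.range (searchLen N)).filter (fun m =>
    decide (msgLen N * msgLen N < m) && isPrimeB (searchLen N) m)).head?.getD 0 := by
  rw [List.head?_filter]
  have : List.find? (fun m => decide (msgLen N * msgLen N < m) && isPrimeB (searchLen N) m)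
      (List.range (searchLen N)) = some (modulus N) := by
    rw [List.find?_range_eq_some]
    refine ⟨?_, List.mem_range.2 (modulus_lt_searchLen N), ?_⟩
    · rw [Bool.and_eq_true, isPrimeB_iff (modulus_lt_searchLen N)]
      refine ⟨?_, modulus_prime N⟩
      have := modulus_gt N
      rw [sq] at this
      simpa using this
    · intro j hj
      have hjB : j < searchLen N := hj.trans (modulus_lt_searchLen N)
      have hmin := Nat.find_min _ hj
      rw [Bool.not_eq_true', Bool.and_eq_false_iff]
      by_cases h1 : msgLen N * msgLen N < j
      · right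
        rw [Bool.eq_false_iff]
        intro h2
        rw [isPrimeB_iff hjB] at h2
        apply hmin
        refine ⟨?_, h2⟩
        rw [sq]; omega
      · left; simpa using h1
  rw [this]
  rfl

lemma p_modulus {l : α → List Bool} (hl : Poly l) : Poly (fun a => modulus (l a).length) := by
  have hk : Poly (fun p : α × ℕ => msgLen (l p.1).length) := (u_msgLen (hl.comp (Poly.fst Poly.id))).toPoly
  have hB : UPoly (fun p : α × ℕ => searchLen (l p.1).length) :=
    u_searchLen (hl.comp (Poly.fst Poly.id))
  have htest : Poly (fun p : α × ℕ => isPrimeB (searchLen (l p.1).length) p.2) := by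
    unfold isPrimeB
    refine Poly.and (Poly.decide_le (Poly.const 2) (Poly.snd Poly.id)) ?_
    refine Poly.all (l := fun p : α × ℕ => List.range (searchLen (l p.1).length))
      (p := fun p d => decide (d < 2) || (decide (p.2 ≤ d) || !decide (p.2 % d = 0)))
      hB.range ?_
    have hd : Poly (fun x : (α × ℕ) × ℕ => x.2) := Poly.snd Poly.id
    have hm : Poly (fun x : (α × ℕ) × ℕ => x.1.2) := Poly.snd (Poly.fst Poly.id)
    exact Poly.or (Poly.decide_lt hd (Poly.const 2)) (Poly.or (Poly.decide_le hm hd)
      (Poly.not (Poly.decide_eq (Poly.mod hm hd) (Poly.const 0))))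
  refine (Poly.head?_getD (Poly.filter
    (l := fun a => List.range (searchLen (l a).length))
    (p := fun a m => decide (msgLen (l a).length * msgLen (l a).length < m) &&
      isPrimeB (searchLen (l a).length) m) (u_searchLen hl).range
    (Poly.and (Poly.decide_lt (Poly.mul hk hk) (Poly.snd Poly.id)) htest)) 0).congr fun a => ?_
  rw [← modulus_eq]

lemma u_width {l : α → List Bool} (hl : Poly l) : UPoly (fun a => width (l a).length) := by
  have h : UPoly (fun a => ((modulus (l a).length).bits).length) :=
    UPoly.length (Poly.natBits (p_modulus hl))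
  refine Poly.congr h fun a => ?_
  beta_reduce
  rw [Nat.size_eq_bits_len]
  rfl

lemma u_numBlocks {l : α → List Bool} (hl : Poly l) : UPoly (fun a => numBlocks (l a).length) := by
  refine UPoly.of_le (m := fun a => numBlocks (l a).length) ?_ (UPoly.length hl) (fun a => ?_)
  · exact Poly.div (Poly.sub (Poly.length hl) (u_msgLen hl).toPoly)
      (Poly.mul (Poly.const 2) (u_width hl).toPoly)
  · exact (Nat.div_le_self _ _).trans (Nat.sub_le _ _)

/-! ### evaluation -/

/-- The value of the polynomial with the given list of 0/1 coefficients. -/
def pval (u : ℕ) : List Bool → ℕ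
  | [] => 0
  | b :: l => (if b then 1 else 0) + u * pval u l

lemma pval_two (l : List Bool) : pval 2 l = valB l := by
  induction l with
  | nil => rfl
  | cons b l ih => simp [pval, ih]

lemma pval_range (u k : ℕ) (b : ℕ → Bool) :
    pval u ((List.range k).map b) = ∑ i ∈ Finset.range k, if b i then u ^ i else 0 := by
  induction k generalizing b with
  | zero => simp [pval]
  | succ k ih =>
    rw [List.range_succ_eq_map, List.map_cons, List.map_map, pval, Finset.sum_range_succ', ih]
    rw [Finset.mul_sum, add_comm]
    congr 1
    · apply Finset.sum_congr rfl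
      intro i _
      simp only [Function.comp]
      split_ifs
      · rw [pow_succ]; ring
      · simp

/-- Horner evaluation modulo `p`. -/
def horner (p u : ℕ) (l : List Bool) : ℕ :=
  l.foldr (fun b acc => ((if b then 1 else 0) + u * acc) % p) 0

lemma horner_eq (p u : ℕ) (l : List Bool) : horner p u l = pval u l % p := by
  unfold horner
  induction l with
  | nil => simp [pval]
  | cons b l ih =>
    rw [List.foldr_cons, ih, pval]
    simp [Nat.add_mod, Nat.mul_mod]

lemma p_horner {l : α → List Bool} {p u : α → ℕ} (hl : Poly l) (hp : Poly p) (hu : Poly u)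
    (hpos : ∀ a, 0 < p a) : Poly (fun a => horner (p a) (u a) (l a)) := by
  obtain ⟨r, hr⟩ := hp.sz_le
  refine Poly.foldr (s := fun _ => 0)
    (F := fun a (b : Bool) acc => ((if b then 1 else 0) + u a * acc) % p a) hl (Poly.const 0)
    ?_ (Polynomial.C 2 * r) ?_
  · refine Poly.mod (Poly.add ?_ (Poly.mul (hu.comp (Poly.fst Poly.id)) (Poly.snd (Poly.snd Poly.id))))
      (hp.comp (Poly.fst Poly.id))
    exact Poly.ite (p := fun x : α × Bool × ℕ => x.2.1 = true)
      (Poly.decide_bool (Poly.fst (Poly.snd Poly.id))) (Poly.const 1) (Poly.const 0)
  · intro a k _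
    have h1 : ∀ l : List Bool, l.foldr (fun b acc => ((if b then 1 else 0) + u a * acc) % p a) 0 ≤
        p a := by
      intro l
      cases l with
      | nil => simp
      | cons b l => exact (Nat.mod_lt _ (hpos a)).le
    have h2 := sz_nat_mono_le (h1 ((l a).drop k))
    have h3 := hr a
    rw [Polynomial.eval_mul, Polynomial.eval_C]
    omega

lemma testBit_eq_getD (n i : ℕ) : n.testBit i = n.bits.getD i false := by
  rw [Nat.testBit_eq_inth, List.getI_eq_getElem?_getD, List.getD_eq_getElem?_getD]
  rfl

lemma sum_range_list (n : ℕ) (f : ℕ → ℕ) :
    ((List.range n).map f).sum = ∑ i ∈ Finset.range n, f i := by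
  induction n with
  | zero => simp
  | succ n ih => rw [List.range_succ, List.map_append, List.sum_append, ih,
      Finset.sum_range_succ]; simp

lemma bitAt_get (l : List Bool) (i : ℕ) : bitAt l.get i = l.getD i false := by
  unfold bitAt
  split_ifs with h
  · simp [List.getD_eq_getElem?_getD, List.getElem?_eq_getElem h]
  · rw [List.getD_eq_getElem?_getD, List.getElem?_eq_none (by omega)]
    rfl

lemma p_point {l : α → List Bool} {j : α → ℕ} (hl : Poly l) (hj : Poly j) :
    Poly (fun a => point (l a).get (j a)) := by
  have h1 : Poly (fun a => (List.range (width (l a).length)).map (fun c =>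
      (l a).getD (msgLen (l a).length + 2 * width (l a).length * j a + c) false)) := by
    refine Poly.map (l := fun a => List.range (width (l a).length))
      (F := fun a c => (l a).getD (msgLen (l a).length + 2 * width (l a).length * j a + c) false)
      (u_width hl).range ?_
    have hl' : Poly (fun p : α × ℕ => l p.1) := hl.comp (Poly.fst Poly.id)
    refine Poly.getD hl' ?_ (Poly.const false)
    exact Poly.add (Poly.add (u_msgLen hl').toPoly
      (Poly.mul (Poly.mul (Poly.const 2) (u_width hl').toPoly) (hj.comp (Poly.fst Poly.id))))
      (Poly.snd Poly.id)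
  refine (Poly.valBits h1).congr fun a => ?_
  rw [← pval_two, pval_range]
  unfold point
  apply Finset.sum_congr rfl
  intro i _
  rw [bitAt_get]

lemma p_polyValue {l : α → List Bool} {j : α → ℕ} (hl : Poly l) (hj : Poly j) :
    Poly (fun a => polyValue (l a).get (j a)) := by
  have h1 : Poly (fun a => (List.range (msgLen (l a).length)).map (fun c =>
      (l a).getD c false)) := by
    refine Poly.map (l := fun a => List.range (msgLen (l a).length))
      (F := fun a c => (l a).getD c false) (u_msgLen hl).range ?_
    exact Poly.getD (hl.comp (Poly.fst Poly.id)) (Poly.snd Poly.id) (Poly.const false)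
  refine (p_horner h1 (p_modulus hl) (p_point hl hj)
    (fun a => (modulus_prime _).pos)).congr fun a => ?_
  rw [horner_eq, pval_range]
  unfold polyValue
  congr 1
  apply Finset.sum_congr rfl
  intro i _
  rw [bitAt_get]

theorem p_hardFun {l : α → List Bool} (hl : Poly l) :
    Poly (fun a => hardFun (l a).length (l a).get) := by
  have h1 : Poly (fun p : (α × ℕ) × ℕ =>
      if (l p.1.1).getD (msgLen (l p.1.1).length + 2 * width (l p.1.1).length * p.1.2 +
        width (l p.1.1).length + p.2) false &&
        ((polyValue (l p.1.1).get p.1.2).bits.getD p.2 false) then 1 else 0) := by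
    have hl' : Poly (fun p : (α × ℕ) × ℕ => l p.1.1) := hl.comp (Poly.fst (Poly.fst Poly.id))
    have hj : Poly (fun p : (α × ℕ) × ℕ => p.1.2) := Poly.snd (Poly.fst Poly.id)
    have hc : Poly (fun p : (α × ℕ) × ℕ => p.2) := Poly.snd Poly.id
    refine Poly.ite (p := fun p : (α × ℕ) × ℕ =>
      ((l p.1.1).getD (msgLen (l p.1.1).length + 2 * width (l p.1.1).length * p.1.2 +
        width (l p.1.1).length + p.2) false &&
        ((polyValue (l p.1.1).get p.1.2).bits.getD p.2 false)) = true)
      (Poly.decide_bool (Poly.and ?_ ?_)) (Poly.const 1) (Poly.const 0)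
    · refine Poly.getD hl' ?_ (Poly.const false)
      exact Poly.add (Poly.add (Poly.add (u_msgLen hl').toPoly
        (Poly.mul (Poly.mul (Poly.const 2) (u_width hl').toPoly) hj)) (u_width hl').toPoly) hc
    · exact Poly.getD (Poly.natBits (p_polyValue hl' hj)) hc (Poly.const false)
  have h2 : Poly (fun p : α × ℕ => ((List.range (width (l p.1).length)).map (fun c =>
      if (l p.1).getD (msgLen (l p.1).length + 2 * width (l p.1).length * p.2 +
        width (l p.1).length + c) false &&
        ((polyValue (l p.1).get p.2).bits.getD c false) then 1 else 0)).sum) := by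
    refine Poly.sum (Poly.map (l := fun p : α × ℕ => List.range (width (l p.1).length))
      (F := fun p c => if (l p.1).getD (msgLen (l p.1).length + 2 * width (l p.1).length * p.2 +
        width (l p.1).length + c) false &&
        ((polyValue (l p.1).get p.2).bits.getD c false) then 1 else 0)
      (u_width (hl.comp (Poly.fst Poly.id))).range h1)
  have h3 : Poly (fun a => ((List.range (numBlocks (l a).length)).map (fun j =>
      ((List.range (width (l a).length)).map (fun c =>
      if (l a).getD (msgLen (l a).length + 2 * width (l a).length * j +
        width (l a).length + c) false &&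
        ((polyValue (l a).get j).bits.getD c false) then 1 else 0)).sum)).sum) :=
    Poly.sum (Poly.map (l := fun a => List.range (numBlocks (l a).length))
      (F := fun a j => ((List.range (width (l a).length)).map (fun c =>
      if (l a).getD (msgLen (l a).length + 2 * width (l a).length * j +
        width (l a).length + c) false &&
        ((polyValue (l a).get j).bits.getD c false) then 1 else 0)).sum)
      (u_numBlocks hl).range h2)
  refine (Poly.decide_eq (Poly.mod h3 (Poly.const 2)) (Poly.const 1)).congr fun a => ?_
  unfold hardFun
  rw [decide_eq_decide, Nat.odd_iff, sum_range_list]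
  have : ∀ j, ((List.range (width (l a).length)).map (fun c =>
      if (l a).getD (msgLen (l a).length + 2 * width (l a).length * j +
        width (l a).length + c) false &&
        ((polyValue (l a).get j).bits.getD c false) then 1 else 0)).sum =
      ∑ c ∈ Finset.range (width (l a).length),
        if bitAt (l a).get (msgLen (l a).length + 2 * width (l a).length * j +
          width (l a).length + c) && (polyValue (l a).get j).testBit c then 1 else 0 := by
    intro j
    rw [sum_range_list]
    apply Finset.sum_congr rfl
    intro c _
    rw [bitAt_get, testBit_eq_getD]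
  simp only [this]

end

/-- The language of the explicit function is decidable in polynomial time. -/
theorem hard_in_P : ∃ V : List Bool → List Bool, PolyTime V ∧
    ∀ x : List Bool, hardFun x.length x.get = true ↔ V x = [true] := by
  refine ⟨fun x => if toT (hardFun x.length x.get) = T.nil then [false] else [true], ?_, ?_⟩
  · have h2 : PC (bits : List Bool → List Bool) T.enc
        (fun x : List Bool => toT (hardFun x.length x.get)) :=
      p_hardFun (α := List Bool) (l := fun x => x) Poly.id
    have h3 : PC (fun x : List Bool => x) (bits : List Bool → List Bool) (fun x => x) := PC.ofBits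
    have h1 : PC (fun x : List Bool => x) T.enc
        (fun x : List Bool => toT (hardFun x.length x.get)) :=
      PC.comp (g := fun x : List Bool => toT (hardFun x.length x.get))
        (f := fun x : List Bool => x) h2 h3
    exact PC.toPolyTime (PC.ite (eb := fun x : List Bool => x) h1 (PC.const _) (PC.const _))
  · intro x
    have e0 : (toT false : T) = T.nil := rfl
    have e1 : (toT true : T) ≠ T.nil := by
      change T.ofBool true ≠ T.nil
      simp [T.ofBool]
    beta_reduce
    generalize hardFun x.length x.get = b
    cases b
    · simp [e0]
    · simp [e1]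

end Pool.Agent.NPC.H559Sharing
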